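import Mathlib

/-!
# Elementary symmetric sums of probability vectors
-/

namespace Pool.Agent.Helper37.NoisyR

open Finset

variable {V : Type*} [DecidableEq V]

/-- Elementary symmetric sum. -/
def es (f : V → ℝ) (A : Finset V) (m : ℕ) : ℝ := ∑ T ∈ A.powersetCard m, ∏ v ∈ T, f v

theorem nr_dc (g : V → Finset V → ℝ) (A : Finset V) (m : ℕ) :
    ∑ T ∈ A.powersetCard (m + 1), ∑ v ∈ T, g v (T.erase v) =
      ∑ v ∈ A, ∑ T ∈ (A.erase v).powersetCard m, g v T := by
  rw [Finset.sum_sigma', Finset.sum_sigma']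
  refine Finset.sum_nbij' (fun x => ⟨x.2, x.1.erase x.2⟩) (fun x => ⟨insert x.1 x.2, x.1⟩)
    ?_ ?_ ?_ ?_ ?_
  · rintro ⟨T, v⟩ h
    simp only [mem_sigma, mem_powersetCard] at h ⊢
    refine ⟨h.1.1 h.2, erase_subset_erase _ h.1.1, ?_⟩
    rw [card_erase_of_mem h.2, h.1.2]
    rfl
  · rintro ⟨v, T⟩ h
    simp only [mem_sigma, mem_powersetCard] at h ⊢
    have hv : v ∉ T := fun h' => (mem_erase.1 (h.2.1 h')).1 rfl
    refine ⟨⟨insert_subset h.1 (h.2.1.trans (erase_subset _ _)), ?_⟩, mem_insert_self _ _⟩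
    rw [card_insert_of_notMem hv, h.2.2]
  · rintro ⟨T, v⟩ h
    simp only [mem_sigma, mem_powersetCard] at h
    simp only [insert_erase h.2]
  · rintro ⟨v, T⟩ h
    simp only [mem_sigma, mem_powersetCard] at h
    have hv : v ∉ T := fun h' => (mem_erase.1 (h.2.1 h')).1 rfl
    simp only [erase_insert hv]
  · rintro ⟨T, v⟩ _
    rfl

theorem nr_es_nonneg {f : V → ℝ} (hf : ∀ v, 0 ≤ f v) (A : Finset V) (m : ℕ) : 0 ≤ es f A m :=
  sum_nonneg fun _ _ => prod_nonneg fun v _ => hf v

theorem nr_es_mono {f : V → ℝ} (hf : ∀ v, 0 ≤ f v) {A B : Finset V} (h : A ⊆ B) (m : ℕ) :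
    es f A m ≤ es f B m :=
  sum_le_sum_of_subset_of_nonneg (powersetCard_mono h) fun _ _ _ => prod_nonneg fun v _ => hf v

theorem nr_es_succ (f : V → ℝ) (A : Finset V) (m : ℕ) :
    (m + 1 : ℝ) * es f A (m + 1) = ∑ v ∈ A, f v * es f (A.erase v) m := by
  have h := nr_dc (fun v T => f v * ∏ u ∈ T, f u) A m
  unfold es
  rw [mul_sum]
  simp_rw [mul_sum]
  rw [← h]
  refine sum_congr rfl fun T hT => ?_
  rw [mem_powersetCard] at hT
  rw [sum_congr rfl (g := fun _ => ∏ v ∈ T, f v) (fun v hv => mul_prod_erase T f hv),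
    sum_const, hT.2]
  simp

theorem nr_es_zero (f : V → ℝ) (A : Finset V) : es f A 0 = 1 := by
  unfold es
  simp

theorem nr_es_le {f : V → ℝ} (hf : ∀ v, 0 ≤ f v) (A : Finset V) (m : ℕ) :
    (m.factorial : ℝ) * es f A m ≤ (∑ v ∈ A, f v) ^ m := by
  induction m with
  | zero => simp [nr_es_zero]
  | succ m ih =>
    have h1 := nr_es_succ f A m
    rw [Nat.factorial_succ]
    push_cast
    have h2 : ∑ v ∈ A, f v * es f (A.erase v) m ≤ (∑ v ∈ A, f v) * es f A m := by
      rw [sum_mul]
      exact sum_le_sum fun v _ => mul_le_mul_of_nonneg_left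
        (nr_es_mono hf (erase_subset _ _) m) (hf v)
    calc ((m : ℝ) + 1) * m.factorial * es f A (m + 1)
        = m.factorial * (((m : ℝ) + 1) * es f A (m + 1)) := by ring
      _ ≤ m.factorial * ((∑ v ∈ A, f v) * es f A m) := by
          rw [h1]
          exact mul_le_mul_of_nonneg_left h2 (by positivity)
      _ = (m.factorial * es f A m) * ∑ v ∈ A, f v := by ring
      _ ≤ (∑ v ∈ A, f v) ^ m * ∑ v ∈ A, f v :=
          mul_le_mul_of_nonneg_right ih (sum_nonneg fun v _ => hf v)
      _ = _ := (pow_succ _ _).symm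

theorem nr_es_split (f : V → ℝ) {A : Finset V} {v : V} (hv : v ∈ A) (m : ℕ) :
    es f A (m + 1) = es f (A.erase v) (m + 1) + f v * es f (A.erase v) m := by
  unfold es
  conv_lhs => rw [← insert_erase hv]
  rw [powersetCard_succ_insert (notMem_erase v A), sum_union]
  · congr 1
    rw [sum_image, mul_sum]
    · refine sum_congr rfl fun T hT => ?_
      rw [mem_powersetCard] at hT
      have : v ∉ T := fun h' => (mem_erase.1 (hT.1 h')).1 rfl
      rw [prod_insert this]
    · intro T hT T' hT' h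
      have hT := (mem_powersetCard.1 (mem_coe.1 hT)).1
      have hT' := (mem_powersetCard.1 (mem_coe.1 hT')).1
      have h1 : v ∉ T := fun h' => (mem_erase.1 (hT h')).1 rfl
      have h2 : v ∉ T' := fun h' => (mem_erase.1 (hT' h')).1 rfl
      rw [← erase_insert h1, ← erase_insert h2, h]
  · rw [disjoint_left]
    intro T hT hT'
    rw [mem_image] at hT'
    obtain ⟨T', _, rfl⟩ := hT'
    rw [mem_powersetCard] at hT
    exact (mem_erase.1 (hT.1 (mem_insert_self _ _))).1 rfl

theorem nr_es_ge {f : V → ℝ} (hf : ∀ v, 0 ≤ f v) (A : Finset V) (hA : ∑ v ∈ A, f v = 1)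
    {δ : ℝ} (hδ : ∀ v ∈ A, f v ≤ δ) (hδ0 : 0 ≤ δ) (m : ℕ) :
    1 - (m : ℝ) ^ 2 / 2 * δ ≤ (m.factorial : ℝ) * es f A m := by
  induction m with
  | zero => simp [nr_es_zero]
  | succ m ih =>
    have h1 := nr_es_succ f A m
    rw [Nat.factorial_succ]
    push_cast
    have h3 : ((m : ℝ) + 1) * m.factorial * es f A (m + 1) =
        m.factorial * ∑ v ∈ A, f v * es f (A.erase v) m := by
      rw [← h1]
      ring
    rw [h3]
    rcases m with _ | m
    · simp only [CharP.cast_eq_zero, zero_add, one_pow, Nat.factorial_zero, Nat.cast_one,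
        one_mul]
      simp_rw [nr_es_zero]
      simp only [mul_one, hA]
      linarith
    · have h4 : ∀ v ∈ A, f v * es f (A.erase v) (m + 1) ≥
          f v * es f A (m + 1) - δ * f v * es f A m := by
        intro v hv
        have h5 := nr_es_split f hv m
        have h6 := nr_es_mono hf (erase_subset v A) m
        have h7 := nr_es_nonneg hf (A.erase v) m
        have h8 : f v * es f (A.erase v) m ≤ δ * es f A m :=
          mul_le_mul (hδ v hv) h6 h7 hδ0
        have h9 := hf v
        have h10 : es f (A.erase v) (m + 1) = es f A (m + 1) - f v * es f (A.erase v) m := by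
          linarith
        rw [h10]
        nlinarith [mul_le_mul_of_nonneg_left h8 h9]
      have h11 : ∑ v ∈ A, (f v * es f A (m + 1) - δ * f v * es f A m) =
          es f A (m + 1) - δ * es f A m := by
        rw [sum_sub_distrib, ← sum_mul, ← sum_mul, ← mul_sum, hA]
        ring
      have h12 : es f A (m + 1) - δ * es f A m ≤ ∑ v ∈ A, f v * es f (A.erase v) (m + 1) := by
        rw [← h11]
        exact sum_le_sum h4
      have h13 := nr_es_le hf A m
      rw [hA, one_pow] at h13
      have h14 : ((m + 1).factorial : ℝ) * (es f A (m + 1) - δ * es f A m) ≤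
          ((m + 1).factorial : ℝ) * ∑ v ∈ A, f v * es f (A.erase v) (m + 1) :=
        mul_le_mul_of_nonneg_left h12 (by positivity)
      refine le_trans ?_ h14
      have h15 : ((m + 1).factorial : ℝ) * (es f A (m + 1) - δ * es f A m) =
          ((m + 1).factorial : ℝ) * es f A (m + 1) -
            (m + 1) * δ * ((m.factorial : ℝ) * es f A m) := by
        rw [Nat.factorial_succ]
        push_cast
        ring
      rw [h15]
      have h16 : ((m : ℝ) + 1) * δ * ((m.factorial : ℝ) * es f A m) ≤ (m + 1) * δ * 1 :=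
        mul_le_mul_of_nonneg_left h13 (by positivity)
      push_cast at ih ⊢
      nlinarith

/-- Mass of the `k`-sets containing `L`. -/
theorem nr_es_sup {f : V → ℝ} (hf : ∀ v, 0 ≤ f v) (A : Finset V) (hA : ∑ v ∈ A, f v = 1)
    {δ : ℝ} (hδ : ∀ v ∈ A, f v ≤ δ) (k : ℕ) (L : Finset V) (hL : L ⊆ A) :
    (k.factorial : ℝ) * ∑ T ∈ (A.powersetCard k).filter (fun T => L ⊆ T), ∏ v ∈ T, f v ≤
      (k.descFactorial L.card : ℝ) * δ ^ L.card := by
  have hδ0 : 0 ≤ δ := by
    by_contra h
    push Not at h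
    have : ∑ v ∈ A, f v ≤ 0 := sum_nonpos fun v hv => (hδ v hv).trans h.le
    linarith
  by_cases hk : L.card ≤ k
  · have h1 : ∑ T ∈ (A.powersetCard k).filter (fun T => L ⊆ T), ∏ v ∈ T, f v =
        (∏ v ∈ L, f v) * es f (A \ L) (k - L.card) := by
      unfold es
      rw [mul_sum]
      refine sum_nbij' (fun T => T \ L) (fun T => L ∪ T) ?_ ?_ ?_ ?_ ?_
      · intro T hT
        rw [mem_filter, mem_powersetCard] at hT
        rw [mem_powersetCard]
        refine ⟨sdiff_subset_sdiff hT.1.1 le_rfl, ?_⟩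
        rw [card_sdiff_of_subset hT.2, hT.1.2]
      · intro T hT
        rw [mem_powersetCard] at hT
        rw [mem_filter, mem_powersetCard]
        refine ⟨⟨union_subset hL (hT.1.trans sdiff_subset), ?_⟩, subset_union_left⟩
        rw [card_union_of_disjoint, hT.2]
        · omega
        · exact disjoint_of_subset_right hT.1 disjoint_sdiff
      · intro T hT
        rw [mem_filter] at hT
        exact union_sdiff_of_subset hT.2
      · intro T hT
        rw [mem_powersetCard] at hT
        exact union_sdiff_cancel_left (disjoint_of_subset_right hT.1 disjoint_sdiff)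
      · intro T hT
        rw [mem_filter] at hT
        rw [mul_comm, prod_sdiff hT.2]
    rw [h1]
    have h2 := nr_es_le hf (A \ L) (k - L.card)
    have h3 : ∑ v ∈ A \ L, f v ≤ 1 := by
      rw [← hA]
      exact sum_le_sum_of_subset_of_nonneg sdiff_subset fun _ _ _ => hf _
    have h4 : (∑ v ∈ A \ L, f v) ^ (k - L.card) ≤ 1 :=
      pow_le_one₀ (sum_nonneg fun _ _ => hf _) h3
    have h5 : ∏ v ∈ L, f v ≤ δ ^ L.card := by
      calc ∏ v ∈ L, f v ≤ ∏ v ∈ L, δ := prod_le_prod (fun v _ => hf v) fun v hv => hδ v (hL hv)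
        _ = δ ^ L.card := by rw [prod_const]
    have h6 : (k.factorial : ℝ) ≤ (k.descFactorial L.card : ℝ) * (k - L.card).factorial := by
      have h7 := Nat.factorial_mul_descFactorial hk
      have h9 : k.factorial ≤ k.descFactorial L.card * (k - L.card).factorial := by
        rw [← h7, mul_comm]
      exact_mod_cast h9
    have h10 : 0 ≤ ∏ v ∈ L, f v := prod_nonneg fun v _ => hf v
    have h11 := nr_es_nonneg hf (A \ L) (k - L.card)
    calc (k.factorial : ℝ) * ((∏ v ∈ L, f v) * es f (A \ L) (k - L.card))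
        ≤ ((k.descFactorial L.card : ℝ) * (k - L.card).factorial) *
            ((∏ v ∈ L, f v) * es f (A \ L) (k - L.card)) :=
          mul_le_mul_of_nonneg_right h6 (mul_nonneg h10 h11)
      _ = ((k.descFactorial L.card : ℝ) * ∏ v ∈ L, f v) *
            ((k - L.card).factorial * es f (A \ L) (k - L.card)) := by ring
      _ ≤ ((k.descFactorial L.card : ℝ) * ∏ v ∈ L, f v) * 1 :=
          mul_le_mul_of_nonneg_left (h2.trans h4) (by positivity)
      _ ≤ (k.descFactorial L.card : ℝ) * δ ^ L.card := by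
          rw [mul_one]
          exact mul_le_mul_of_nonneg_left h5 (by positivity)
  · have h1 : (A.powersetCard k).filter (fun T => L ⊆ T) = ∅ := by
      rw [filter_eq_empty_iff]
      intro T hT h
      rw [mem_powersetCard] at hT
      have := card_le_card h
      omega
    rw [h1]
    simp only [sum_empty, mul_zero]
    positivity

/-- Chernoff bound for `k`-sets weighted by a product. -/
theorem nr_chern {f : V → ℝ} (hf : ∀ v, 0 ≤ f v) (A : Finset V) (hA : ∑ v ∈ A, f v = 1)
    (c : V → V → ℝ) {a lam s θ : ℝ} (hc0 : ∀ u v, 0 ≤ c u v) (hca : ∀ u v, c u v ≤ a)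
    (hlam : ∀ v ∈ A, f v ≠ 0 → ∑ u ∈ A, f u * c v u ≤ lam) (hs : 0 ≤ s) (hsa : s * a ≤ 1)
    (hlam0 : 0 ≤ lam)
    (k : ℕ) (B : Finset (Finset V))
    (hB : ∀ T ∈ B, T ∈ A.powersetCard k ∧ ∃ v ∈ T, θ ≤ ∑ u ∈ T.erase v, c v u) :
    (k.factorial : ℝ) * ∑ T ∈ B, ∏ v ∈ T, f v ≤
      k * Real.exp (k * (s * lam + s ^ 2 * a ^ 2) - s * θ) := by
  rcases k with _ | m
  · have : B = ∅ := by
      rw [eq_empty_iff_forall_notMem]
      intro T hT
      obtain ⟨h1, v, hv, _⟩ := hB T hT
      rw [mem_powersetCard] at h1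
      rw [card_eq_zero.1 h1.2] at hv
      exact notMem_empty v hv
    rw [this]
    simp
  have h1 : ∑ T ∈ B, ∏ v ∈ T, f v ≤
      ∑ T ∈ A.powersetCard (m + 1), ∑ v ∈ T, f v * (Real.exp (-(s * θ)) *
        ∏ u ∈ T.erase v, (f u * Real.exp (s * c v u))) := by
    have h2 : ∀ T ∈ A.powersetCard (m + 1), 0 ≤ ∑ v ∈ T, f v * (Real.exp (-(s * θ)) *
        ∏ u ∈ T.erase v, (f u * Real.exp (s * c v u))) := fun T _ =>
      sum_nonneg fun v _ => mul_nonneg (hf v) (mul_nonneg (Real.exp_pos _).le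
        (prod_nonneg fun u _ => mul_nonneg (hf u) (Real.exp_pos _).le))
    refine le_trans ?_ (sum_le_sum_of_subset_of_nonneg (s := B) (fun T hT => (hB T hT).1)
      fun T hT _ => h2 T hT)
    refine sum_le_sum fun T hT => ?_
    obtain ⟨h3, v, hv, h4⟩ := hB T hT
    refine le_trans ?_ (single_le_sum (fun v _ => mul_nonneg (hf v)
      (mul_nonneg (Real.exp_pos _).le
        (prod_nonneg fun u _ => mul_nonneg (hf u) (Real.exp_pos _).le))) hv)
    rw [prod_mul_distrib, ← Real.exp_sum, ← mul_sum]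
    have h5 : 1 ≤ Real.exp (-(s * θ)) * Real.exp (s * ∑ u ∈ T.erase v, c v u) := by
      rw [← Real.exp_add]
      refine Real.one_le_exp ?_
      nlinarith [mul_le_mul_of_nonneg_left h4 hs]
    have h6 : 0 ≤ ∏ u ∈ T.erase v, f u := prod_nonneg fun u _ => hf u
    rw [← mul_prod_erase T f hv]
    refine mul_le_mul_of_nonneg_left ?_ (hf v)
    calc ∏ u ∈ T.erase v, f u = (∏ u ∈ T.erase v, f u) * 1 := (mul_one _).symm
      _ ≤ (∏ u ∈ T.erase v, f u) *
          (Real.exp (-(s * θ)) * Real.exp (s * ∑ u ∈ T.erase v, c v u)) :=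
        mul_le_mul_of_nonneg_left h5 h6
      _ = _ := by ring
  have h2 := nr_dc (fun v T => f v * (Real.exp (-(s * θ)) *
        ∏ u ∈ T, (f u * Real.exp (s * c v u)))) A m
  rw [h2] at h1
  have h3 : ∀ v ∈ A, ((m.factorial : ℝ)) * ∑ T ∈ (A.erase v).powersetCard m,
      f v * (Real.exp (-(s * θ)) * ∏ u ∈ T, (f u * Real.exp (s * c v u))) ≤
      f v * Real.exp ((m + 1) * (s * lam + s ^ 2 * a ^ 2) - s * θ) := by
    intro v hv
    by_cases hfv : f v = 0
    · rw [hfv]
      simp
    rw [← mul_sum, ← mul_sum]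
    have h4 := nr_es_le (f := fun u => f u * Real.exp (s * c v u))
      (fun u => mul_nonneg (hf u) (Real.exp_pos _).le) (A.erase v) m
    have h5 : ∑ u ∈ A.erase v, f u * Real.exp (s * c v u) ≤
        Real.exp (s * lam + s ^ 2 * a ^ 2) := by
      have h6 : ∀ u, Real.exp (s * c v u) ≤ 1 + s * c v u + s ^ 2 * a ^ 2 := by
        intro u
        have h7 : |s * c v u| ≤ 1 := by
          rw [abs_of_nonneg (mul_nonneg hs (hc0 v u))]
          exact (mul_le_mul_of_nonneg_left (hca v u) hs).trans hsa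
        have h8 := Real.abs_exp_sub_one_sub_id_le h7
        have h9 := (abs_le.1 h8).2
        have h10 : (s * c v u) ^ 2 ≤ s ^ 2 * a ^ 2 := by
          rw [mul_pow]
          exact mul_le_mul_of_nonneg_left
            (pow_le_pow_left₀ (hc0 v u) (hca v u) 2) (sq_nonneg s)
        linarith
      calc ∑ u ∈ A.erase v, f u * Real.exp (s * c v u)
          ≤ ∑ u ∈ A, f u * Real.exp (s * c v u) :=
            sum_le_sum_of_subset_of_nonneg (erase_subset _ _)
              fun u _ _ => mul_nonneg (hf u) (Real.exp_pos _).le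
        _ ≤ ∑ u ∈ A, f u * (1 + s * c v u + s ^ 2 * a ^ 2) :=
            sum_le_sum fun u _ => mul_le_mul_of_nonneg_left (h6 u) (hf u)
        _ = ∑ u ∈ A, f u + s * ∑ u ∈ A, f u * c v u + (∑ u ∈ A, f u) * (s ^ 2 * a ^ 2) := by
            rw [mul_sum, sum_mul, ← sum_add_distrib, ← sum_add_distrib]
            refine sum_congr rfl fun u _ => ?_
            ring
        _ ≤ 1 + (s * lam + s ^ 2 * a ^ 2) := by
            rw [hA]
            have := mul_le_mul_of_nonneg_left (hlam v hv hfv) hs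
            linarith
        _ ≤ _ := by
            have := Real.add_one_le_exp (s * lam + s ^ 2 * a ^ 2)
            linarith
    have h6 : (∑ u ∈ A.erase v, f u * Real.exp (s * c v u)) ^ m ≤
        Real.exp ((m + 1) * (s * lam + s ^ 2 * a ^ 2)) := by
      calc (∑ u ∈ A.erase v, f u * Real.exp (s * c v u)) ^ m
          ≤ Real.exp (s * lam + s ^ 2 * a ^ 2) ^ m :=
            pow_le_pow_left₀ (sum_nonneg fun u _ => mul_nonneg (hf u) (Real.exp_pos _).le) h5 m
        _ = Real.exp (m * (s * lam + s ^ 2 * a ^ 2)) := by rw [← Real.exp_nat_mul]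
        _ ≤ _ := by
            refine Real.exp_le_exp.2 ?_
            have : 0 ≤ s * lam + s ^ 2 * a ^ 2 := by positivity
            nlinarith
    have h7 : Real.exp ((m + 1) * (s * lam + s ^ 2 * a ^ 2) - s * θ) =
        Real.exp (-(s * θ)) * Real.exp ((m + 1) * (s * lam + s ^ 2 * a ^ 2)) := by
      rw [← Real.exp_add]
      ring_nf
    rw [h7]
    calc (m.factorial : ℝ) * (f v * (Real.exp (-(s * θ)) *
          ∑ T ∈ (A.erase v).powersetCard m, ∏ u ∈ T, (f u * Real.exp (s * c v u))))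
        = f v * (Real.exp (-(s * θ)) * ((m.factorial : ℝ) *
          es (fun u => f u * Real.exp (s * c v u)) (A.erase v) m)) := by
            unfold es
            ring
      _ ≤ _ := by
          refine mul_le_mul_of_nonneg_left (mul_le_mul_of_nonneg_left (h4.trans h6)
            (Real.exp_pos _).le) (hf v)
  rw [Nat.factorial_succ]
  push_cast
  calc ((m : ℝ) + 1) * m.factorial * ∑ T ∈ B, ∏ v ∈ T, f v
      ≤ ((m : ℝ) + 1) * m.factorial * ∑ v ∈ A, ∑ T ∈ (A.erase v).powersetCard m,
      f v * (Real.exp (-(s * θ)) * ∏ u ∈ T, (f u * Real.exp (s * c v u))) :=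
        mul_le_mul_of_nonneg_left h1 (by positivity)
    _ = ((m : ℝ) + 1) * ∑ v ∈ A, ((m.factorial : ℝ)) * ∑ T ∈ (A.erase v).powersetCard m,
      f v * (Real.exp (-(s * θ)) * ∏ u ∈ T, (f u * Real.exp (s * c v u))) := by
        rw [mul_assoc, mul_sum]
    _ ≤ ((m : ℝ) + 1) * ∑ v ∈ A, f v * Real.exp ((m + 1) * (s * lam + s ^ 2 * a ^ 2) - s * θ) :=
        mul_le_mul_of_nonneg_left (sum_le_sum h3) (by positivity)
    _ = _ := by rw [← sum_mul, hA, one_mul]

end Pool.Agent.Helper37.NoisyR
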