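import Mathlib

/-!
# A weighted second moment inequality for families of independent events
-/

namespace Pool.Agent.Helper37.NoisyR

open MeasureTheory ProbabilityTheory

section

variable {Ω : Type*} [MeasurableSpace Ω] {ι I : Type*}

/-- The event `E e` or its complement, according to the sign `b`. -/
def ev (E : ι → Set Ω) (b : Bool) (e : ι) : Set Ω := if b then E e else (E e)ᶜ

/-- The probability of `ev E b e`. -/
noncomputable def pr (μ : Measure Ω) (E : ι → Set Ω) (b : Bool) (e : ι) : ℝ :=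
  μ.real (ev E b e)

theorem nr_ev_meas {E : ι → Set Ω} (hE : ∀ e, MeasurableSet (E e)) (b : Bool) (e : ι) :
    MeasurableSet (ev E b e) := by
  unfold ev
  cases b
  · simpa using (hE e).compl
  · simpa using hE e

theorem nr_indep {μ : Measure Ω} {E : ι → Set Ω} (hI : iIndepSet E μ)
    (σ : ι → Bool) (D : Finset ι) :
    μ.real (⋂ e ∈ D, ev E (σ e) e) = ∏ e ∈ D, pr μ E (σ e) e := by
  have h1 := (iIndepSet_iff_iIndep E μ).1 hI
  have h2 := h1.meas_biInter (S := D) (s := fun e => ev E (σ e) e) (by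
    intro e _
    have h3 : MeasurableSet[MeasurableSpace.generateFrom {E e}] (E e) :=
      MeasurableSpace.measurableSet_generateFrom (Set.mem_singleton _)
    show MeasurableSet[MeasurableSpace.generateFrom {E e}] (ev E (σ e) e)
    unfold ev
    cases σ e
    · simpa using h3.compl
    · simpa using h3)
  unfold pr Measure.real
  rw [h2, ENNReal.toReal_prod]

variable [Fintype I] [DecidableEq ι]

omit [Fintype I] in
open Classical in
/-- The correlation factor of two indices. -/
noncomputable def bd (μ : Measure Ω) (E : ι → Set Ω) (D : I → Finset ι) (τ : I → Bool)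
    (i j : I) : ℝ :=
  if τ i = τ j ∧ (D i ∩ D j).Nonempty then ∏ e ∈ D i ∩ D j, (pr μ E (τ i) e)⁻¹ else 0

omit [DecidableEq ι] in
theorem nr_pr_nonneg {μ : Measure Ω} {E : ι → Set Ω} (b : Bool) (e : ι) : 0 ≤ pr μ E b e :=
  measureReal_nonneg

omit [Fintype I] in
theorem nr_pair {μ : Measure Ω} {E : ι → Set Ω} (hI : iIndepSet E μ)
    (D : I → Finset ι) (τ : I → Bool)
    (hpos : ∀ i, ∀ e ∈ D i, 0 < pr μ E (τ i) e) (i j : I) :
    μ.real ((⋂ e ∈ D i, ev E (τ i) e) ∩ ⋂ e ∈ D j, ev E (τ j) e) ≤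
      (∏ e ∈ D i, pr μ E (τ i) e) * (∏ e ∈ D j, pr μ E (τ j) e) * (1 + bd μ E D τ i j) := by
  classical
  by_cases hd : (D i ∩ D j).Nonempty
  · by_cases hτ : τ i = τ j
    · have h1 : (⋂ e ∈ D i, ev E (τ i) e) ∩ (⋂ e ∈ D j, ev E (τ j) e) =
          ⋂ e ∈ D i ∪ D j, ev E (τ i) e := by
        ext ω
        simp only [Set.mem_inter_iff, Set.mem_iInter, Finset.mem_union, ← hτ]
        constructor
        · rintro ⟨h1, h2⟩ e (he | he)
          · exact h1 e he
          · exact h2 e he
        · intro h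
          exact ⟨fun e he => h e (Or.inl he), fun e he => h e (Or.inr he)⟩
      rw [h1, nr_indep hI (fun _ => τ i)]
      have h2 := Finset.prod_union_inter (s₁ := D i) (s₂ := D j) (f := fun e => pr μ E (τ i) e)
      have h3 : 0 < ∏ e ∈ D i ∩ D j, pr μ E (τ i) e :=
        Finset.prod_pos fun e he => hpos i e (Finset.mem_inter.1 he).1
      have h4 : bd μ E D τ i j = (∏ e ∈ D i ∩ D j, pr μ E (τ i) e)⁻¹ := by
        unfold bd
        rw [if_pos ⟨hτ, hd⟩, Finset.prod_inv_distrib]
      rw [h4, ← hτ, ← h2]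
      have h5 : 0 ≤ ∏ e ∈ D i ∪ D j, pr μ E (τ i) e :=
        Finset.prod_nonneg fun e _ => nr_pr_nonneg _ _
      calc ∏ e ∈ D i ∪ D j, pr μ E (τ i) e
          = (∏ e ∈ D i ∪ D j, pr μ E (τ i) e) * (∏ e ∈ D i ∩ D j, pr μ E (τ i) e) *
            (∏ e ∈ D i ∩ D j, pr μ E (τ i) e)⁻¹ := by field_simp
        _ ≤ _ := by
          refine mul_le_mul_of_nonneg_left ?_ (mul_nonneg h5 h3.le)
          linarith
    · obtain ⟨e, he⟩ := hd
      have h1 : (⋂ e ∈ D i, ev E (τ i) e) ∩ (⋂ e ∈ D j, ev E (τ j) e) = ∅ := by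
        ext ω
        simp only [Set.mem_inter_iff, Set.mem_iInter, Set.mem_empty_iff_false, iff_false]
        rintro ⟨h1, h2⟩
        have h3 := h1 e (Finset.mem_inter.1 he).1
        have h4 := h2 e (Finset.mem_inter.1 he).2
        unfold ev at h3 h4
        cases hi : τ i <;> cases hj : τ j <;> simp_all
      rw [h1]
      have h2 : bd μ E D τ i j = 0 := by
        unfold bd
        rw [if_neg (fun h => hτ h.1)]
      rw [h2]
      simp only [measureReal_empty, add_zero, mul_one]
      exact mul_nonneg (Finset.prod_nonneg fun e _ => nr_pr_nonneg _ _)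
        (Finset.prod_nonneg fun e _ => nr_pr_nonneg _ _)
  · have hdis : Disjoint (D i) (D j) := by
      rw [Finset.disjoint_iff_inter_eq_empty]
      exact Finset.not_nonempty_iff_eq_empty.1 hd
    have h2 : bd μ E D τ i j = 0 := by
      unfold bd
      rw [if_neg (fun h => hd h.2)]
    have h1 : (⋂ e ∈ D i, ev E (τ i) e) ∩ (⋂ e ∈ D j, ev E (τ j) e) =
        ⋂ e ∈ D i ∪ D j, ev E (if e ∈ D i then τ i else τ j) e := by
      ext ω
      simp only [Set.mem_inter_iff, Set.mem_iInter, Finset.mem_union]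
      constructor
      · rintro ⟨h1, h2⟩ e he
        by_cases hi : e ∈ D i
        · rw [if_pos hi]
          exact h1 e hi
        · rw [if_neg hi]
          exact h2 e (he.resolve_left hi)
      · intro h
        refine ⟨fun e he => ?_, fun e he => ?_⟩
        · have := h e (Or.inl he)
          rwa [if_pos he] at this
        · have := h e (Or.inr he)
          rwa [if_neg (Finset.disjoint_right.1 hdis he)] at this
    rw [h1, nr_indep hI (fun e => if e ∈ D i then τ i else τ j), h2,
      Finset.prod_union hdis, add_zero, mul_one]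
    refine le_of_eq ?_
    refine congrArg₂ _ ?_ ?_
    · refine Finset.prod_congr rfl fun e he => ?_
      rw [if_pos he]
    · refine Finset.prod_congr rfl fun e he => ?_
      rw [if_neg (Finset.disjoint_right.1 hdis he)]

/-- **Weighted second moment inequality.** -/
theorem nr_wsm {μ : Measure Ω} [IsProbabilityMeasure μ] {E : ι → Set Ω}
    (hE : ∀ e, MeasurableSet (E e)) (hI : iIndepSet E μ)
    (D : I → Finset ι) (τ : I → Bool) (w : I → ℝ) (hw : ∀ i, 0 ≤ w i) (hw1 : ∑ i, w i = 1)
    (hpos : ∀ i, ∀ e ∈ D i, 0 < pr μ E (τ i) e) (Z : Set Ω)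
    (hZ : ∀ ω ∈ Z, ∀ i, w i ≠ 0 → ∃ e ∈ D i, ω ∉ ev E (τ i) e) :
    μ.real Z ≤ ∑ i, w i * ∑ j, w j * bd μ E D τ i j := by
  classical
  set A : I → Set Ω := fun i => ⋂ e ∈ D i, ev E (τ i) e with hA
  set P : I → ℝ := fun i => ∏ e ∈ D i, pr μ E (τ i) e with hP
  have hAm : ∀ i, MeasurableSet (A i) := fun i =>
    Finset.measurableSet_biInter _ fun e _ => nr_ev_meas hE _ _
  have hPpos : ∀ i, 0 < P i := fun i => Finset.prod_pos fun e he => hpos i e he
  have hPA : ∀ i, μ.real (A i) = P i := fun i => nr_indep hI (fun _ => τ i) (D i)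
  set X : Ω → ℝ := fun ω => ∑ i, (w i / P i) * (A i).indicator (fun _ => (1 : ℝ)) ω with hX
  have hint : ∀ i, Integrable ((A i).indicator (fun _ => (1 : ℝ))) μ := fun i =>
    (integrable_const (1 : ℝ)).indicator (hAm i)
  have hXint : Integrable X μ := by
    refine integrable_finsetSum _ fun i _ => ?_
    exact (hint i).const_mul _
  have hEX : ∫ ω, X ω ∂μ = 1 := by
    rw [hX]
    rw [integral_finsetSum _ fun i _ => (hint i).const_mul _]
    refine Eq.trans (Finset.sum_congr rfl fun i _ => ?_) hw1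
    rw [integral_const_mul, integral_indicator_const _ (hAm i), hPA i, smul_eq_mul, mul_one,
      div_mul_cancel₀ _ (hPpos i).ne']
  have hX2 : ∀ ω, X ω ^ 2 = ∑ i, ∑ j, (w i / P i) * (w j / P j) *
      (A i ∩ A j).indicator (fun _ => (1 : ℝ)) ω := by
    intro ω
    rw [sq, hX]
    simp only
    rw [Finset.sum_mul_sum]
    refine Finset.sum_congr rfl fun i _ => Finset.sum_congr rfl fun j _ => ?_
    by_cases h1 : ω ∈ A i <;> by_cases h2 : ω ∈ A j <;>
      simp [Set.indicator, h1, h2]
  have hint2 : ∀ i j, Integrable ((A i ∩ A j).indicator (fun _ => (1 : ℝ))) μ := fun i j =>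
    (integrable_const (1 : ℝ)).indicator ((hAm i).inter (hAm j))
  have hX2int : Integrable (fun ω => X ω ^ 2) μ := by
    simp_rw [hX2]
    refine integrable_finsetSum _ fun i _ => integrable_finsetSum _ fun j _ => ?_
    exact (hint2 i j).const_mul _
  have hEX2 : ∫ ω, X ω ^ 2 ∂μ ≤ 1 + ∑ i, w i * ∑ j, w j * bd μ E D τ i j := by
    simp_rw [hX2]
    rw [integral_finsetSum _ fun i _ => integrable_finsetSum _ fun j _ =>
      (hint2 i j).const_mul _]
    have h1 : ∀ i, ∫ ω, ∑ j, (w i / P i) * (w j / P j) *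
        (A i ∩ A j).indicator (fun _ => (1 : ℝ)) ω ∂μ ≤
        ∑ j, (w i * w j + w i * (w j * bd μ E D τ i j)) := by
      intro i
      rw [integral_finsetSum _ fun j _ => (hint2 i j).const_mul _]
      refine Finset.sum_le_sum fun j _ => ?_
      rw [integral_const_mul, integral_indicator_const _ ((hAm i).inter (hAm j)),
        smul_eq_mul, mul_one]
      have h2 := nr_pair hI D τ hpos i j
      have h3 : 0 ≤ (w i / P i) * (w j / P j) :=
        mul_nonneg (div_nonneg (hw i) (hPpos i).le) (div_nonneg (hw j) (hPpos j).le)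
      calc (w i / P i) * (w j / P j) * μ.real (A i ∩ A j)
          ≤ (w i / P i) * (w j / P j) * (P i * P j * (1 + bd μ E D τ i j)) :=
            mul_le_mul_of_nonneg_left h2 h3
        _ = w i * w j + w i * (w j * bd μ E D τ i j) := by
            have := (hPpos i).ne'
            have := (hPpos j).ne'
            field_simp
            try ring
    refine (Finset.sum_le_sum fun i _ => h1 i).trans (le_of_eq ?_)
    simp_rw [Finset.sum_add_distrib, ← Finset.mul_sum]
    rw [← Finset.sum_mul, hw1]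
    ring
  have hZm : MeasurableSet (⋂ i ∈ (Finset.univ.filter fun i => w i ≠ 0), (A i)ᶜ) :=
    Finset.measurableSet_biInter _ fun i _ => (hAm i).compl
  have hZs : Z ⊆ ⋂ i ∈ (Finset.univ.filter fun i => w i ≠ 0), (A i)ᶜ := by
    intro ω hω
    simp only [Set.mem_iInter, Finset.mem_filter, Finset.mem_univ, true_and]
    intro i hi
    obtain ⟨e, he, h⟩ := hZ ω hω i hi
    intro h'
    exact h (by
      have := Set.mem_iInter₂.1 h' e he
      exact this)
  have h4 : μ.real Z ≤ ∫ ω, (X ω ^ 2 - 2 * X ω + 1) ∂μ := by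
    refine (measureReal_mono hZs).trans ?_
    rw [← integral_indicator_one hZm]
    refine integral_mono ((integrable_const (1 : ℝ)).indicator hZm)
      ((hX2int.sub (hXint.const_mul 2)).add (integrable_const 1)) ?_
    intro ω
    simp only
    by_cases h : ω ∈ ⋂ i ∈ (Finset.univ.filter fun i => w i ≠ 0), (A i)ᶜ
    · rw [Set.indicator_of_mem h]
      have h5 : X ω = 0 := by
        refine Finset.sum_eq_zero fun i _ => ?_
        by_cases hi : w i = 0
        · rw [hi]
          simp
        · rw [Set.indicator_of_notMem (Set.mem_iInter₂.1 h i (by simpa using hi)), mul_zero]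
      rw [h5]
      simp
    · rw [Set.indicator_of_notMem h]
      nlinarith [sq_nonneg (X ω - 1)]
  refine h4.trans ?_
  have h6 : ∫ ω, (X ω ^ 2 - 2 * X ω + 1) ∂μ = ∫ ω, (X ω ^ 2 - 2 * X ω) ∂μ + ∫ _ω, (1 : ℝ) ∂μ :=
    integral_add (hX2int.sub (hXint.const_mul 2)) (integrable_const 1)
  have h7 : ∫ ω, (X ω ^ 2 - 2 * X ω) ∂μ = ∫ ω, X ω ^ 2 ∂μ - ∫ ω, 2 * X ω ∂μ :=
    integral_sub hX2int (hXint.const_mul 2)
  rw [h6, h7, integral_const_mul, hEX]
  simp only [integral_const, probReal_univ, smul_eq_mul, mul_one]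
  linarith

end

end Pool.Agent.Helper37.NoisyR
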