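import Mathlib

/-!
# Random graphs with independent edges and noise rate `q`
-/

namespace Pool.Agent.Helper37.NoisyR

open MeasureTheory ProbabilityTheory

/-- `G` is a random graph on `Fin N` with independent edges, every pair being an edge with
probability between `q` and `1 - q`. -/
structure IsNoisy (q : ℝ) {N : ℕ} {Ω : Type} [MeasurableSpace Ω] (μ : Measure Ω)
    (G : Ω → SimpleGraph (Fin N)) : Prop where
  meas : ∀ i j, MeasurableSet {ω | (G ω).Adj i j}
  indep : iIndepSet (fun e : {p : Fin N × Fin N // p.1 < p.2} => {ω | (G ω).Adj e.1.1 e.1.2}) μ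
  lower : ∀ i j, i ≠ j → q ≤ μ.real {ω | (G ω).Adj i j}
  upper : ∀ i j, i ≠ j → μ.real {ω | (G ω).Adj i j} ≤ 1 - q

/-- Every random graph on `N` vertices with independent edges and noise rate `q` contains a
clique or an independent set of size `k` with probability at least `1 - η`. -/
def Hom (q η : ℝ) (N k : ℕ) : Prop :=
  ∀ (Ω : Type) [MeasurableSpace Ω] (μ : Measure Ω) [IsProbabilityMeasure μ]
    (G : Ω → SimpleGraph (Fin N)), IsNoisy q μ G →
    1 - η ≤ μ.real {ω | ∃ s : Finset (Fin N), (G ω).IsNClique k s ∨ (G ω)ᶜ.IsNClique k s}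

/-- The Ramsey number with noise rate `q`. -/
noncomputable def RN (q : ℝ) (k : ℕ) : ℕ := sInf {N : ℕ | Hom q (1 / 2) N k}

end Pool.Agent.Helper37.NoisyR
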