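import Mathlib
import Pool.Agent.Helper37.NoisyR.WSM
import Pool.Agent.Helper37.NoisyR.Esym

/-!
# The weighted second moment inequality for homogeneous sets of random graphs
-/

namespace Pool.Agent.Helper37.NoisyR

open Finset MeasureTheory ProbabilityTheory

/-- Normalised weights on a family of `k`-sets. -/
theorem nr_weight {V : Type*} [Fintype V] [DecidableEq V] {f : V → ℝ} (hf : ∀ v, 0 ≤ f v)
    (hA : ∑ v, f v = 1) {δ : ℝ} (hδ : ∀ v, f v ≤ δ) (k : ℕ) (G : Finset (Finset V))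
    (hG : ∀ T ∈ G, T.card = k) (hmass : 1 / 2 ≤ (k.factorial : ℝ) * ∑ T ∈ G, ∏ v ∈ T, f v) :
    ∃ w : Finset V → ℝ, (∀ T, 0 ≤ w T) ∧ ∑ T, w T = 1 ∧
      (∀ T, w T ≠ 0 → T ∈ G ∧ ∀ v ∈ T, f v ≠ 0) ∧
      ∀ L : Finset V, ∑ T ∈ univ.filter (fun T => L ⊆ T), w T ≤
        2 * ((k.descFactorial L.card : ℝ) * δ ^ L.card) := by
  classical
  set Z : ℝ := ∑ T ∈ G, ∏ v ∈ T, f v with hZ
  have hZ0 : 0 < Z := by
    by_contra h
    push Not at h
    have : (k.factorial : ℝ) * Z ≤ 0 := mul_nonpos_of_nonneg_of_nonpos (by positivity) h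
    linarith
  refine ⟨fun T => if T ∈ G then (∏ v ∈ T, f v) / Z else 0, fun T => ?_, ?_, fun T hT => ?_,
    fun L => ?_⟩
  · simp only
    split_ifs
    · exact div_nonneg (prod_nonneg fun v _ => hf v) hZ0.le
    · exact le_rfl
  · rw [← sum_filter]
    simp only [filter_univ_mem]
    rw [← sum_div, div_self hZ0.ne']
  · by_cases h : T ∈ G
    · refine ⟨h, fun v hv h0 => hT ?_⟩
      simp only [if_pos h]
      rw [prod_eq_zero hv h0, zero_div]
    · exact absurd (by simp only [if_neg h]) hT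
  · have h1 : ∑ T ∈ univ.filter (fun T => L ⊆ T), (if T ∈ G then (∏ v ∈ T, f v) / Z else 0) ≤
        (∑ T ∈ (univ.powersetCard k).filter (fun T => L ⊆ T), ∏ v ∈ T, f v) / Z := by
      rw [← sum_filter, sum_div]
      refine sum_le_sum_of_subset_of_nonneg ?_ fun T _ _ =>
        div_nonneg (prod_nonneg fun v _ => hf v) hZ0.le
      intro T hT
      rw [mem_filter, mem_filter] at hT
      rw [mem_filter, mem_powersetCard]
      exact ⟨⟨subset_univ _, hG T hT.2⟩, hT.1.2⟩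
    refine h1.trans ?_
    have h2 := nr_es_sup hf univ hA (fun v _ => hδ v) k L (subset_univ L)
    rw [div_le_iff₀ hZ0]
    have h3 : 0 < (k.factorial : ℝ) := by positivity
    have h4 : 0 ≤ (k.descFactorial L.card : ℝ) * δ ^ L.card := by
      have hδ0 : 0 ≤ δ := by
        rcases (univ : Finset V).eq_empty_or_nonempty with h | ⟨v, _⟩
        · rw [h] at hA
          simp at hA
        · exact (hf v).trans (hδ v)
      positivity
    have h5 : (k.factorial : ℝ) * ∑ T ∈ (univ.powersetCard k).filter (fun T => L ⊆ T),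
        ∏ v ∈ T, f v ≤ (k.factorial : ℝ) *
          (2 * ((k.descFactorial L.card : ℝ) * δ ^ L.card) * Z) := by
      refine h2.trans ?_
      nlinarith [mul_le_mul_of_nonneg_left hmass h4]
    exact le_of_mul_le_mul_left h5 h3

/-- Edges of the complete graph on `Fin N`, as increasing pairs. -/
abbrev Ed (N : ℕ) : Type := {p : Fin N × Fin N // p.1 < p.2}

/-- Edges inside a vertex set. -/
def DS {N : ℕ} (S : Finset (Fin N)) : Finset (Ed N) :=
  univ.filter fun e => e.1.1 ∈ S ∧ e.1.2 ∈ S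

theorem nr_mem_DS {N : ℕ} {S : Finset (Fin N)} {e : Ed N} :
    e ∈ DS S ↔ e.1.1 ∈ S ∧ e.1.2 ∈ S := by
  simp [DS]

theorem nr_DS_inter {N : ℕ} (S T : Finset (Fin N)) : DS S ∩ DS T = DS (S ∩ T) := by
  ext e
  simp only [mem_inter, nr_mem_DS]
  tauto

theorem nr_DS_mono {N : ℕ} {S T : Finset (Fin N)} (h : S ⊆ T) : DS S ⊆ DS T := by
  intro e he
  rw [nr_mem_DS] at he ⊢
  exact ⟨h he.1, h he.2⟩

theorem nr_DS_card2 {N : ℕ} {S : Finset (Fin N)} (h : (DS S).Nonempty) : 2 ≤ S.card := by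
  obtain ⟨e, he⟩ := h
  rw [nr_mem_DS] at he
  have h1 : ({e.1.1, e.1.2} : Finset (Fin N)) ⊆ S := by
    intro v hv
    rw [mem_insert, mem_singleton] at hv
    rcases hv with rfl | rfl
    · exact he.1
    · exact he.2
  have h2 := card_le_card h1
  rwa [card_pair e.2.ne] at h2

theorem nr_half {N : ℕ} (f : Fin N → Fin N → ℝ) (hf : ∀ i j, f i j = f j i)
    (S : Finset (Fin N)) :
    2 * ∑ e ∈ DS S, f e.1.1 e.1.2 = ∑ i ∈ S, ∑ j ∈ S.erase i, f i j := by
  have h1 : ∑ e ∈ DS S, f e.1.1 e.1.2 =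
      ∑ p ∈ (S ×ˢ S).filter (fun p => p.1 < p.2), f p.1 p.2 := by
    refine sum_bij (fun e _ => e.1) ?_ ?_ ?_ ?_
    · intro e he
      rw [nr_mem_DS] at he
      rw [mem_filter, mem_product]
      exact ⟨he, e.2⟩
    · intro e _ e' _ h
      exact Subtype.ext h
    · intro p hp
      rw [mem_filter, mem_product] at hp
      exact ⟨⟨p, hp.2⟩, nr_mem_DS.2 hp.1, rfl⟩
    · intro e _
      rfl
  have h2 : ∑ p ∈ (S ×ˢ S).filter (fun p => p.1 < p.2), f p.1 p.2 =
      ∑ p ∈ (S ×ˢ S).filter (fun p => p.2 < p.1), f p.1 p.2 := by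
    refine sum_nbij' (fun p => (p.2, p.1)) (fun p => (p.2, p.1)) ?_ ?_ ?_ ?_ ?_
    · intro p hp
      simp only [mem_filter, mem_product] at hp ⊢
      exact ⟨⟨hp.1.2, hp.1.1⟩, hp.2⟩
    · intro p hp
      simp only [mem_filter, mem_product] at hp ⊢
      exact ⟨⟨hp.1.2, hp.1.1⟩, hp.2⟩
    · intro p _
      rfl
    · intro p _
      rfl
    · intro p _
      exact hf _ _
  have h3 : ∑ i ∈ S, ∑ j ∈ S.erase i, f i j =
      ∑ p ∈ (S ×ˢ S).filter (fun p => p.1 ≠ p.2), f p.1 p.2 := by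
    rw [sum_filter, sum_product]
    refine sum_congr rfl fun i _ => ?_
    rw [← sum_filter]
    refine sum_congr ?_ fun _ _ => rfl
    ext j
    simp only [mem_erase, mem_filter]
    constructor
    · rintro ⟨h, h'⟩
      exact ⟨h', fun h'' => h h''.symm⟩
    · rintro ⟨h, h'⟩
      exact ⟨fun h'' => h' h''.symm, h⟩
  have h4 : (S ×ˢ S).filter (fun p => p.1 ≠ p.2) =
      (S ×ˢ S).filter (fun p => p.1 < p.2) ∪ (S ×ˢ S).filter (fun p => p.2 < p.1) := by
    ext p
    simp only [mem_filter, mem_union]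
    constructor
    · rintro ⟨h, h'⟩
      rcases lt_or_gt_of_ne h' with h'' | h''
      · exact Or.inl ⟨h, h''⟩
      · exact Or.inr ⟨h, h''⟩
    · rintro (⟨h, h'⟩ | ⟨h, h'⟩)
      · exact ⟨h, h'.ne⟩
      · exact ⟨h, h'.ne'⟩
  rw [h3, h4, sum_union, h1, ← h2]
  · ring
  · rw [disjoint_left]
    intro p hp hp'
    rw [mem_filter] at hp hp'
    exact lt_asymm hp.2 hp'.2

theorem nr_DS_card {N : ℕ} (S : Finset (Fin N)) :
    ((DS S).card : ℝ) = (S.card : ℝ) * (S.card - 1) / 2 := by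
  have h := nr_half (fun _ _ => (1 : ℝ)) (fun _ _ => rfl) S
  have h1 : ∑ i ∈ S, ∑ j ∈ S.erase i, (1 : ℝ) = (S.card : ℝ) * (S.card - 1) := by
    rw [sum_congr rfl (g := fun _ => (S.card : ℝ) - 1)]
    · rw [sum_const, nsmul_eq_mul]
    · intro i hi
      rw [sum_const, nsmul_eq_mul, mul_one, card_erase_of_mem hi, Nat.cast_sub, Nat.cast_one]
      exact card_pos.2 ⟨i, hi⟩
  rw [h1, sum_const, nsmul_eq_mul, mul_one] at h
  linarith

open Classical in
/-- **Second moment bound for homogeneous sets.** -/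
theorem nr_graph_sm {N k : ℕ} {Ω : Type*} [MeasurableSpace Ω] {μ : Measure Ω}
    [IsProbabilityMeasure μ] {E : Ed N → Set Ω} (hE : ∀ e, MeasurableSet (E e))
    (hI : iIndepSet E μ) (hpos : ∀ b e, 0 < pr μ E b e)
    (w : Finset (Fin N) → ℝ) (hw : ∀ S, 0 ≤ w S) (hw1 : ∑ S, w S = 1)
    (hwk : ∀ S, w S ≠ 0 → S.card = k) (τ : Finset (Fin N) → Bool) (s : ℕ → ℝ)
    (hs0 : ∀ l, 0 ≤ s l)
    (hspread : ∀ L : Finset (Fin N), ∑ T ∈ univ.filter (fun T => L ⊆ T), w T ≤ s L.card)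
    (F : ℕ → ℝ) (hF0 : ∀ l, 0 ≤ F l)
    (hF : ∀ S, w S ≠ 0 → ∀ L ⊆ S, 2 ≤ L.card → ∏ e ∈ DS L, (pr μ E (τ S) e)⁻¹ ≤ F L.card)
    (Z : Set Ω) (hZ : ∀ ω ∈ Z, ∀ S, w S ≠ 0 → ∃ e ∈ DS S, ω ∉ ev E (τ S) e) :
    μ.real Z ≤ ∑ l ∈ range (k + 1), if 2 ≤ l then (k.choose l : ℝ) * (s l * F l)
      else 0 := by
  refine (nr_wsm hE hI DS τ w hw hw1 (fun i e _ => hpos _ e) Z hZ).trans ?_
  have key : ∀ S, w S ≠ 0 → ∑ T, w T * bd μ E DS τ S T ≤
      ∑ l ∈ range (k + 1), if 2 ≤ l then (k.choose l : ℝ) * (s l * F l) else 0 := by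
    intro S hS
    have h1 : ∀ T, w T * bd μ E DS τ S T ≤
        ∑ L ∈ S.powerset, if L ⊆ T then
          (if 2 ≤ L.card then w T * F L.card else 0) else 0 := by
      intro T
      have hnn : ∀ L ∈ S.powerset, (0 : ℝ) ≤ if L ⊆ T then
          (if 2 ≤ L.card then w T * F L.card else 0) else 0 := by
        intro L _
        split_ifs
        · exact mul_nonneg (hw T) (hF0 _)
        · exact le_rfl
        · exact le_rfl
      unfold bd
      split_ifs with h
      · refine le_trans ?_ (single_le_sum hnn (mem_powerset.2 inter_subset_left : S ∩ T ∈ _))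
        rw [nr_DS_inter] at h ⊢
        have h2 := nr_DS_card2 h.2
        rw [if_pos inter_subset_right, if_pos h2]
        exact mul_le_mul_of_nonneg_left (hF S hS _ inter_subset_left h2) (hw T)
      · rw [mul_zero]
        exact sum_nonneg hnn
    refine (sum_le_sum fun T _ => h1 T).trans ?_
    rw [sum_comm]
    have h2 : ∀ L ∈ S.powerset, ∑ T, (if L ⊆ T then
          (if 2 ≤ L.card then w T * F L.card else 0) else 0) ≤
          (fun l : ℕ => if 2 ≤ l then s l * F l else 0) L.card := by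
      intro L _
      rw [← sum_filter]
      simp only
      split_ifs with h
      · rw [← sum_mul]
        exact mul_le_mul_of_nonneg_right (hspread L) (hF0 _)
      · simp
    refine (sum_le_sum h2).trans ?_
    rw [sum_powerset_apply_card (fun l : ℕ => if 2 ≤ l then s l * F l else 0), hwk S hS]
    refine sum_le_sum fun l _ => ?_
    rw [nsmul_eq_mul]
    split_ifs
    · exact le_rfl
    · simp
  have hnn : (0 : ℝ) ≤ ∑ l ∈ range (k + 1), if 2 ≤ l then (k.choose l : ℝ) *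
      (s l * F l) else 0 := by
    refine sum_nonneg fun l _ => ?_
    split_ifs
    · have := hF0 l
      have := hs0 l
      positivity
    · exact le_rfl
  calc ∑ S, w S * ∑ T, w T * bd μ E DS τ S T
      ≤ ∑ S, w S * ∑ l ∈ range (k + 1), (if 2 ≤ l then (k.choose l : ℝ) *
        (s l * F l) else 0) := by
        refine sum_le_sum fun S _ => ?_
        by_cases hS : w S = 0
        · rw [hS]
          simp
        · exact mul_le_mul_of_nonneg_left (key S hS) (hw S)
    _ = _ := by rw [← sum_mul, hw1, one_mul]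

end Pool.Agent.Helper37.NoisyR
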