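import Mathlib
import Pool.Agent.Helper37.NoisyR.Defs
import Pool.Agent.Helper37.NoisyR.Graph

/-!
# The second moment bound in the language of random graphs
-/

namespace Pool.Agent.Helper37.NoisyR

open Finset MeasureTheory ProbabilityTheory

section

variable {q : ℝ} {N : ℕ} {Ω : Type} [MeasurableSpace Ω] {μ : Measure Ω}
  {G : Ω → SimpleGraph (Fin N)}

/-- Edge events. -/
def EE (G : Ω → SimpleGraph (Fin N)) (e : Ed N) : Set Ω := {ω | (G ω).Adj e.1.1 e.1.2}

/-- Probability of the edge or non-edge `ij`. -/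
noncomputable def pp (μ : Measure Ω) (G : Ω → SimpleGraph (Fin N)) (b : Bool) (i j : Fin N) : ℝ :=
  if b then μ.real {ω | (G ω).Adj i j} else 1 - μ.real {ω | (G ω).Adj i j}

theorem nr_pr_eq [IsProbabilityMeasure μ] (h : IsNoisy q μ G) (b : Bool) (e : Ed N) :
    pr μ (EE G) b e = pp μ G b e.1.1 e.1.2 := by
  unfold pr pp ev EE
  cases b
  · simp only [Bool.false_eq_true, if_false]
    exact probReal_compl_eq_one_sub (h.meas _ _)
  · simp

theorem nr_pp_comm (b : Bool) (i j : Fin N) : pp μ G b i j = pp μ G b j i := by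
  unfold pp
  simp_rw [SimpleGraph.adj_comm]

theorem nr_pp_lower (h : IsNoisy q μ G) (b : Bool) {i j : Fin N} (hij : i ≠ j) :
    q ≤ pp μ G b i j := by
  have h1 := h.lower i j hij
  have h2 := h.upper i j hij
  unfold pp
  cases b
  · simp only [Bool.false_eq_true, if_false]
    linarith
  · simpa using h1

theorem nr_pp_upper (h : IsNoisy q μ G) (b : Bool) {i j : Fin N} (hij : i ≠ j) :
    pp μ G b i j ≤ 1 - q := by
  have h1 := h.lower i j hij
  have h2 := h.upper i j hij
  unfold pp
  cases b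
  · simp only [Bool.false_eq_true, if_false]
    linarith
  · simpa using h2

/-- Cost of the edge or non-edge `ij`; zero on the diagonal. -/
noncomputable def cost (μ : Measure Ω) (G : Ω → SimpleGraph (Fin N)) (b : Bool)
    (i j : Fin N) : ℝ :=
  if i = j then 0 else -Real.log (pp μ G b i j)

theorem nr_cost_comm (b : Bool) (i j : Fin N) : cost μ G b i j = cost μ G b j i := by
  unfold cost
  rw [nr_pp_comm b i j]
  by_cases h : i = j
  · rw [if_pos h, if_pos h.symm]
  · rw [if_neg h, if_neg fun h' => h h'.symm]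

theorem nr_cost_le (hq : 0 < q) (hq1 : q ≤ 1) (h : IsNoisy q μ G) (b : Bool) (i j : Fin N) :
    cost μ G b i j ≤ -Real.log q := by
  unfold cost
  split_ifs with hij
  · have := Real.log_nonpos hq.le hq1
    linarith
  · have := Real.log_le_log hq (nr_pp_lower h b hij)
    linarith

theorem nr_cost_ge (hq : 0 < q) (h : IsNoisy q μ G) (b : Bool) {i j : Fin N} (hij : i ≠ j) :
    -Real.log (1 - q) ≤ cost μ G b i j := by
  unfold cost
  rw [if_neg hij]
  have := Real.log_le_log (hq.trans_le (nr_pp_lower h b hij)) (nr_pp_upper h b hij)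
  linarith

theorem nr_cost_nonneg (hq : 0 < q) (h : IsNoisy q μ G) (b : Bool) (i j : Fin N) :
    0 ≤ cost μ G b i j := by
  unfold cost
  split_ifs with hij
  · exact le_rfl
  · have := Real.log_nonpos (hq.le.trans (nr_pp_lower h b hij))
      ((nr_pp_upper h b hij).trans (by linarith))
    linarith

theorem nr_cost_sum (hq : 0 < q) (hq1 : q ≤ 1 / 2) (h : IsNoisy q μ G) (i j : Fin N) :
    cost μ G true i j + cost μ G false i j ≤ -Real.log (q * (1 - q)) := by
  unfold cost
  split_ifs with hij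
  · have := Real.log_nonpos (x := q * (1 - q)) (by nlinarith) (by nlinarith)
    linarith
  · have h1 := nr_pp_lower h true hij
    have h2 := nr_pp_lower h false hij
    have h3 := nr_pp_upper h true hij
    have h4 : pp μ G false i j = 1 - pp μ G true i j := by
      unfold pp
      simp
    have h5 : Real.log (q * (1 - q)) ≤ Real.log (pp μ G true i j * pp μ G false i j) := by
      refine Real.log_le_log (by nlinarith) ?_
      rw [h4]
      nlinarith
    have h6 : Real.log (pp μ G true i j * pp μ G false i j) =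
        Real.log (pp μ G true i j) + Real.log (pp μ G false i j) :=
      Real.log_mul (by linarith) (by linarith)
    linarith

open Classical in
theorem nr_hom_sm [IsProbabilityMeasure μ] {k : ℕ} (hq : 0 < q) (h : IsNoisy q μ G)
    (w : Finset (Fin N) → ℝ) (hw : ∀ S, 0 ≤ w S) (hw1 : ∑ S, w S = 1)
    (hwk : ∀ S, w S ≠ 0 → S.card = k) (τ : Finset (Fin N) → Bool) (s : ℕ → ℝ)
    (hs0 : ∀ l, 0 ≤ s l)
    (hspread : ∀ L : Finset (Fin N), ∑ T ∈ univ.filter (fun T => L ⊆ T), w T ≤ s L.card)
    (φ : ℕ → ℝ)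
    (hF : ∀ S, w S ≠ 0 → ∀ L ⊆ S, 2 ≤ L.card →
      ∑ e ∈ DS L, cost μ G (τ S) e.1.1 e.1.2 ≤ φ L.card) :
    1 - ∑ l ∈ range (k + 1), (if 2 ≤ l then (k.choose l : ℝ) * (s l * Real.exp (φ l)) else 0) ≤
      μ.real {ω | ∃ s : Finset (Fin N), (G ω).IsNClique k s ∨ (G ω)ᶜ.IsNClique k s} := by
  set H : Set Ω := {ω | ∃ s : Finset (Fin N), (G ω).IsNClique k s ∨ (G ω)ᶜ.IsNClique k s} with hH
  have hpp : ∀ b (e : Ed N), 0 < pp μ G b e.1.1 e.1.2 := fun b e =>
    hq.trans_le (nr_pp_lower h b e.2.ne)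
  have key : μ.real Hᶜ ≤ ∑ l ∈ range (k + 1), if 2 ≤ l then (k.choose l : ℝ) *
      (s l * Real.exp (φ l)) else 0 := by
    refine nr_graph_sm (E := EE G) (fun e => h.meas _ _) h.indep (fun b e => ?_) w hw hw1 hwk τ s
      hs0 hspread (fun l => Real.exp (φ l)) (fun l => (Real.exp_pos _).le) ?_ _ ?_
    · rw [nr_pr_eq h]
      exact hpp b e
    · intro S hS L hL hL2
      have h1 : ∏ e ∈ DS L, (pr μ (EE G) (τ S) e)⁻¹ =
          Real.exp (∑ e ∈ DS L, cost μ G (τ S) e.1.1 e.1.2) := by
        rw [Real.exp_sum]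
        refine prod_congr rfl fun e _ => ?_
        unfold cost
        rw [if_neg e.2.ne, Real.exp_neg, Real.exp_log (hpp _ _), nr_pr_eq h]
      rw [h1]
      exact Real.exp_le_exp.2 (hF S hS L hL hL2)
    · intro ω hω S hS
      by_contra hcon
      push Not at hcon
      refine hω ⟨S, ?_⟩
      have hc := hwk S hS
      cases hτ : τ S
      · refine Or.inr ⟨?_, hc⟩
        intro i hi j hj hij
        rw [SimpleGraph.compl_adj]
        refine ⟨hij, fun hadj => ?_⟩
        rcases lt_or_gt_of_ne hij with h' | h'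
        · have := hcon ⟨(i, j), h'⟩ (nr_mem_DS.2 ⟨hi, hj⟩)
          rw [hτ] at this
          exact this hadj
        · have := hcon ⟨(j, i), h'⟩ (nr_mem_DS.2 ⟨hj, hi⟩)
          rw [hτ] at this
          exact this hadj.symm
      · refine Or.inl ⟨?_, hc⟩
        intro i hi j hj hij
        rcases lt_or_gt_of_ne hij with h' | h'
        · have := hcon ⟨(i, j), h'⟩ (nr_mem_DS.2 ⟨hi, hj⟩)
          rw [hτ] at this
          exact this
        · have := hcon ⟨(j, i), h'⟩ (nr_mem_DS.2 ⟨hj, hi⟩)
          rw [hτ] at this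
          exact SimpleGraph.Adj.symm this
  have h1 : (1 : ℝ) ≤ μ.real H + μ.real Hᶜ := by
    have h2 := measureReal_union_le (μ := μ) H Hᶜ
    rw [Set.union_compl_self, probReal_univ] at h2
    exact h2
  linarith

end

end Pool.Agent.Helper37.NoisyR
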