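import Mathlib
import Pool.Agent.Helper37.NoisyR.Assemble

/-!
# Sharp bound for noise rates between 9/25 and 1/2
-/

namespace Pool.Agent.Helper37.NoisyR

open Finset MeasureTheory ProbabilityTheory Filter

/-- A simple upper bound for the factorial. -/
theorem nr_fact_le {k : ℕ} (hk : 1 ≤ k) :
    (k.factorial : ℝ) ≤ Real.exp 1 * k * (k / Real.exp 1) ^ k := by
  induction k, hk using Nat.le_induction with
  | base => simp
  | succ k hk ih =>
    have hk' : (0 : ℝ) < k := by exact_mod_cast hk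
    rw [Nat.factorial_succ]
    push_cast
    have h1 : Real.exp 1 ≤ (((k : ℝ) + 1) / k) ^ (k + 1) := by
      have h2 : (1 : ℝ) / (k + 1) ≤ Real.log (((k : ℝ) + 1) / k) := by
        have h3 := Real.one_sub_inv_le_log_of_pos (x := ((k : ℝ) + 1) / k) (by positivity)
        refine le_trans (le_of_eq ?_) h3
        field_simp
        ring
      rw [← Real.exp_log (show (0 : ℝ) < (((k : ℝ) + 1) / k) ^ (k + 1) by positivity),
        Real.log_pow]
      refine Real.exp_le_exp.2 ?_
      push_cast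
      rw [div_le_iff₀ (by positivity)] at h2
      linarith
    calc ((k : ℝ) + 1) * k.factorial
        ≤ ((k : ℝ) + 1) * (Real.exp 1 * k * (k / Real.exp 1) ^ k) :=
          mul_le_mul_of_nonneg_left ih (by positivity)
      _ = ((k : ℝ) + 1) * (k / Real.exp 1) ^ k * k * Real.exp 1 := by ring
      _ ≤ ((k : ℝ) + 1) * (k / Real.exp 1) ^ k * k * (((k : ℝ) + 1) / k) ^ (k + 1) :=
          mul_le_mul_of_nonneg_left h1 (by positivity)
      _ = _ := by
          rw [div_pow, div_pow, div_pow, pow_succ (k : ℝ), pow_succ (Real.exp 1)]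
          field_simp

/-- Constants. -/
theorem nr_const {q : ℝ} (h1 : 9 / 25 ≤ q) (h2 : q ≤ 1 / 2) :
    6 / 25 ≤ 3 * (-Real.log (1 - q)) - (-Real.log q) ∧
    6 / 125 ≤ 7 * (-Real.log (1 - q)) - 3 * (-Real.log q) := by
  have hq : 0 < q := by linarith
  have hq' : 0 < 1 - q := by linarith
  have hq3 : (1 - q) ≤ 16 / 25 := by linarith
  constructor
  · have h3 := Real.one_sub_inv_le_log_of_pos (x := q / (1 - q) ^ 3) (by positivity)
    rw [Real.log_div hq.ne' (by positivity), Real.log_pow] at h3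
    have h4 : (q / (1 - q) ^ 3)⁻¹ ≤ 3 / 4 := by
      rw [inv_div, div_le_iff₀ hq]
      calc (1 - q) ^ 3 ≤ (16 / 25) ^ 3 := pow_le_pow_left₀ hq'.le hq3 3
        _ ≤ 3 / 4 * (9 / 25) := by norm_num
        _ ≤ 3 / 4 * q := by linarith
    push_cast at h3
    linarith
  · have h3 := Real.one_sub_inv_le_log_of_pos (x := q ^ 3 / (1 - q) ^ 7) (by positivity)
    rw [Real.log_div (by positivity) (by positivity), Real.log_pow, Real.log_pow] at h3
    have h4 : (q ^ 3 / (1 - q) ^ 7)⁻¹ ≤ 119 / 125 := by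
      rw [inv_div, div_le_iff₀ (by positivity)]
      calc (1 - q) ^ 7 ≤ (16 / 25) ^ 7 := pow_le_pow_left₀ hq'.le hq3 7
        _ ≤ 119 / 125 * (9 / 25) ^ 3 := by norm_num
        _ ≤ 119 / 125 * q ^ 3 := by
          have := pow_le_pow_left₀ (by norm_num) h1 3
          linarith
    push_cast at h3
    linarith

/-- Cost bound for the majority sign of a set, all edge probabilities being in `[q, 1 - q]`. -/
theorem nr_costB {q : ℝ} {N : ℕ} {Ω : Type} [MeasurableSpace Ω] {μ : Measure Ω}
    {G : Ω → SimpleGraph (Fin N)} (hq : 0 < q) (hq1 : q ≤ 1 / 2) (h : IsNoisy q μ G) :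
    ∃ τ : Finset (Fin N) → Bool, ∀ S L, L ⊆ S →
      ∑ e ∈ DS L, cost μ G (τ S) e.1.1 e.1.2 ≤
        min (-Real.log q * ((L.card : ℝ) * (L.card - 1) / 2))
          (-Real.log (q * (1 - q)) / 2 * ((S.card : ℝ) * (S.card - 1) / 2) -
            (-Real.log (1 - q)) * ((S.card : ℝ) * (S.card - 1) / 2 -
              (L.card : ℝ) * (L.card - 1) / 2)) := by
  classical
  have hex : ∀ S : Finset (Fin N), ∃ b, ∑ e ∈ DS S, cost μ G b e.1.1 e.1.2 ≤
      -Real.log (q * (1 - q)) / 2 * ((S.card : ℝ) * (S.card - 1) / 2) := by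
    intro S
    by_contra hcon
    push Not at hcon
    have h1 := hcon true
    have h2 := hcon false
    have h3 : ∑ e ∈ DS S, (cost μ G true e.1.1 e.1.2 + cost μ G false e.1.1 e.1.2) ≤
        ∑ e ∈ DS S, (-Real.log (q * (1 - q))) :=
      sum_le_sum fun e _ => nr_cost_sum hq hq1 h _ _
    rw [sum_add_distrib, sum_const, nsmul_eq_mul, nr_DS_card] at h3
    linarith
  choose τ hτ using hex
  refine ⟨τ, fun S L hL => le_min ?_ ?_⟩
  · refine (sum_le_sum fun e _ => nr_cost_le hq (by linarith) h (τ S) e.1.1 e.1.2).trans ?_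
    rw [sum_const, nsmul_eq_mul, nr_DS_card]
    linarith
  · have h1 := hτ S
    have h2 := sum_sdiff (f := fun e : Ed N => cost μ G (τ S) e.1.1 e.1.2) (nr_DS_mono hL)
    have h3 : ∑ e ∈ DS S \ DS L, (-Real.log (1 - q)) ≤
        ∑ e ∈ DS S \ DS L, cost μ G (τ S) e.1.1 e.1.2 :=
      sum_le_sum fun e _ => nr_cost_ge hq h (τ S) e.2.ne
    rw [sum_const, nsmul_eq_mul, card_sdiff_of_subset (nr_DS_mono hL),
      Nat.cast_sub (card_le_card (nr_DS_mono hL)), nr_DS_card, nr_DS_card] at h3
    linarith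

/-- Term by term estimate. -/
theorem nr_termB {a b ε : ℝ} (hε : 0 < ε) (h1 : 6 / 25 ≤ 3 * b - a) (h2 : 6 / 125 ≤ 7 * b - 3 * a)
    (hb : 0 ≤ b) (hba : b ≤ a) {k l : ℕ} (hk : 1 ≤ k) (hl : 2 ≤ l) (hlk : l ≤ k) {M : ℝ}
    (hM : (1 + ε) * (k / Real.exp 1) * Real.exp ((a + b) / 2 * (k - 1) / 2) ≤ M) :
    (k.choose l : ℝ) * (2 * ((k.descFactorial l : ℝ) * (1 / M) ^ l) *
      Real.exp (min (a * ((l : ℝ) * (l - 1) / 2))
        ((a + b) / 2 * ((k : ℝ) * (k - 1) / 2) -
          b * ((k : ℝ) * (k - 1) / 2 - (l : ℝ) * (l - 1) / 2)))) ≤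
      2 * ((k.choose l : ℝ) * (Real.exp 1 * Real.exp (-(k - 1) / 50)) ^ l) +
      2 * Real.exp 1 * k * ((1 + ε)⁻¹) ^ k *
        ((k.choose (k - l) : ℝ) * ((1 + ε) * k * Real.exp (-(k - 1) / 250)) ^ (k - l)) := by
  have hk1 : (1 : ℝ) ≤ k := by exact_mod_cast hk
  have hl2 : (2 : ℝ) ≤ l := by exact_mod_cast hl
  have hlk' : (l : ℝ) ≤ k := by exact_mod_cast hlk
  have he := Real.exp_pos 1
  set ρ : ℝ := (1 + ε) * (k / Real.exp 1) * Real.exp ((a + b) / 2 * (k - 1) / 2) with hρ
  have hρ0 : 0 < ρ := by positivity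
  have hM0 : 0 < M := hρ0.trans_le hM
  have hMρ : (1 / M) ^ l ≤ (1 / ρ) ^ l :=
    pow_le_pow_left₀ (by positivity) (one_div_le_one_div_of_le hρ0 hM) l
  by_cases hcase : 3 * (l : ℝ) ≤ 2 * k
  · -- small intersections
    refine le_trans ?_ (le_add_of_nonneg_right (by positivity))
    have h3 : (k.descFactorial l : ℝ) ≤ (k : ℝ) ^ l := by
      exact_mod_cast Nat.descFactorial_le_pow k l
    have h4 : Real.exp (min (a * ((l : ℝ) * (l - 1) / 2))
        ((a + b) / 2 * ((k : ℝ) * (k - 1) / 2) -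
          b * ((k : ℝ) * (k - 1) / 2 - (l : ℝ) * (l - 1) / 2))) ≤
        Real.exp (a * ((l - 1) / 2)) ^ l := by
      rw [← Real.exp_nat_mul]
      refine Real.exp_le_exp.2 ((min_le_left _ _).trans (le_of_eq ?_))
      ring
    have h5 : (k : ℝ) * (1 / ρ) * Real.exp (a * ((l - 1) / 2)) ≤
        Real.exp 1 * Real.exp (-(k - 1) / 50) := by
      have h6 : (k : ℝ) * (1 / ρ) ≤ Real.exp 1 * Real.exp (-((a + b) / 2 * (k - 1) / 2)) := by
        rw [mul_one_div, div_le_iff₀ hρ0, hρ, Real.exp_neg]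
        have h7 : Real.exp 1 * (Real.exp ((a + b) / 2 * (k - 1) / 2))⁻¹ *
            ((1 + ε) * (k / Real.exp 1) * Real.exp ((a + b) / 2 * (k - 1) / 2)) =
            (1 + ε) * k := by
          field_simp
        rw [h7]
        nlinarith
      calc (k : ℝ) * (1 / ρ) * Real.exp (a * ((l - 1) / 2))
          ≤ Real.exp 1 * Real.exp (-((a + b) / 2 * (k - 1) / 2)) *
            Real.exp (a * ((l - 1) / 2)) := mul_le_mul_of_nonneg_right h6 (Real.exp_pos _).le
        _ = Real.exp 1 * Real.exp (-((a + b) / 2 * (k - 1) / 2) + a * ((l - 1) / 2)) := by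
            rw [Real.exp_add]
            ring
        _ ≤ _ := by
            refine mul_le_mul_of_nonneg_left (Real.exp_le_exp.2 ?_) he.le
            have ha : 0 ≤ a := hb.trans hba
            have h8 : a * ((l : ℝ) - 1) ≤ a * (2 / 3 * (k - 1)) :=
              mul_le_mul_of_nonneg_left (by linarith) ha
            have h9 : (6 / 25 : ℝ) * (k - 1) ≤ (3 * b - a) * (k - 1) :=
              mul_le_mul_of_nonneg_right h1 (by linarith)
            linarith
    calc (k.choose l : ℝ) * (2 * ((k.descFactorial l : ℝ) * (1 / M) ^ l) *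
      Real.exp (min (a * ((l : ℝ) * (l - 1) / 2))
        ((a + b) / 2 * ((k : ℝ) * (k - 1) / 2) -
          b * ((k : ℝ) * (k - 1) / 2 - (l : ℝ) * (l - 1) / 2))))
        ≤ (k.choose l : ℝ) * (2 * ((k : ℝ) ^ l * (1 / ρ) ^ l) *
          Real.exp (a * ((l - 1) / 2)) ^ l) := by
          refine mul_le_mul_of_nonneg_left ?_ (by positivity)
          refine mul_le_mul ?_ h4 (Real.exp_pos _).le (by positivity)
          refine mul_le_mul_of_nonneg_left ?_ (by norm_num)
          exact mul_le_mul h3 hMρ (by positivity) (by positivity)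
      _ = 2 * ((k.choose l : ℝ) * ((k : ℝ) * (1 / ρ) * Real.exp (a * ((l - 1) / 2))) ^ l) := by
          rw [mul_pow, mul_pow]
          ring
      _ ≤ _ := by
          refine mul_le_mul_of_nonneg_left (mul_le_mul_of_nonneg_left ?_ (by positivity))
            (by norm_num)
          exact pow_le_pow_left₀ (by positivity) h5 l
  · -- large intersections
    push Not at hcase
    refine le_trans ?_ (le_add_of_nonneg_left (by positivity))
    obtain ⟨j, rfl⟩ := Nat.exists_eq_add_of_le hlk
    have hj : l + j - l = j := by omega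
    rw [hj]
    set k : ℕ := l + j with hkdef
    have hkl : (k : ℝ) = l + j := by rw [hkdef]; push_cast; ring
    have hj3 : 3 * (j : ℝ) ≤ k := by linarith
    have hdesc : (k.descFactorial l : ℝ) ≤ k.factorial := by
      have h3 := Nat.factorial_mul_descFactorial hlk
      have h4 : k.descFactorial l ≤ k.factorial := by
        rw [← h3]
        exact Nat.le_mul_of_pos_left _ (Nat.factorial_pos _)
      exact_mod_cast h4
    have hchoose : (k.choose l : ℝ) = k.choose j := by
      have : k.choose l = k.choose j := by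
        rw [← Nat.choose_symm hlk, hj]
      rw [this]
    have hfact := nr_fact_le hk
    have hρl : (1 / ρ) ^ l = (1 / ρ) ^ k * ρ ^ j := by
      rw [hkdef, pow_add, one_div, inv_pow, inv_pow]
      field_simp
    have hρk : (k.factorial : ℝ) * (1 / ρ) ^ k ≤ Real.exp 1 * k * ((1 + ε)⁻¹) ^ k *
        Real.exp (-((a + b) / 2 * (k * (k - 1) / 2))) := by
      have h3 : (1 / ρ) ^ k = ((1 + ε)⁻¹) ^ k * ((k / Real.exp 1) ^ k)⁻¹ *
          Real.exp (-((a + b) / 2 * (k * (k - 1) / 2))) := by
        rw [one_div, hρ, mul_inv, mul_inv, mul_pow, mul_pow, inv_pow ((k : ℝ) / Real.exp 1),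
          ← Real.exp_neg, ← Real.exp_nat_mul]
        congr 2
        ring
      rw [h3]
      calc (k.factorial : ℝ) * (((1 + ε)⁻¹) ^ k * ((k / Real.exp 1) ^ k)⁻¹ *
          Real.exp (-((a + b) / 2 * (k * (k - 1) / 2))))
          ≤ (Real.exp 1 * k * (k / Real.exp 1) ^ k) * (((1 + ε)⁻¹) ^ k *
            ((k / Real.exp 1) ^ k)⁻¹ * Real.exp (-((a + b) / 2 * (k * (k - 1) / 2)))) :=
            mul_le_mul_of_nonneg_right hfact (by positivity)
        _ = _ := by
            have : ((k : ℝ) / Real.exp 1) ^ k ≠ 0 := by positivity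
            field_simp
    have hρj : ρ ^ j * Real.exp (-(b * (k * (k - 1) / 2 - l * (l - 1) / 2))) ≤
        ((1 + ε) * k * Real.exp (-(k - 1) / 250)) ^ j := by
      have h3 : Real.exp (-(b * (k * (k - 1) / 2 - l * (l - 1) / 2))) =
          Real.exp (-(b * ((2 * k - j - 1) / 2))) ^ j := by
        rw [← Real.exp_nat_mul]
        congr 1
        have : (l : ℝ) = k - j := by linarith
        rw [this]
        ring
      rw [h3, ← mul_pow]
      refine pow_le_pow_left₀ (by positivity) ?_ j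
      rw [hρ]
      calc (1 + ε) * (k / Real.exp 1) * Real.exp ((a + b) / 2 * (k - 1) / 2) *
          Real.exp (-(b * ((2 * k - j - 1) / 2)))
          = (1 + ε) * (k / Real.exp 1) * Real.exp ((a + b) / 2 * (k - 1) / 2 +
            -(b * ((2 * k - j - 1) / 2))) := by rw [Real.exp_add]; ring
        _ ≤ (1 + ε) * (k / 1) * Real.exp (-(k - 1) / 250) := by
          refine mul_le_mul ?_ (Real.exp_le_exp.2 ?_) (Real.exp_pos _).le (by positivity)
          · refine mul_le_mul_of_nonneg_left ?_ (by positivity)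
            exact div_le_div_of_nonneg_left (by positivity) one_pos
              (Real.one_le_exp zero_le_one)
          · have h4 : b * (5 / 3 * (k - 1)) ≤ b * (2 * k - j - 1) :=
              mul_le_mul_of_nonneg_left (by linarith) hb
            have h5 : (6 / 125 : ℝ) * (k - 1) ≤ (7 * b - 3 * a) * (k - 1) :=
              mul_le_mul_of_nonneg_right h2 (by linarith)
            linarith
        _ = _ := by ring
    have h4 : Real.exp (min (a * ((l : ℝ) * (l - 1) / 2))
        ((a + b) / 2 * ((k : ℝ) * (k - 1) / 2) -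
          b * ((k : ℝ) * (k - 1) / 2 - (l : ℝ) * (l - 1) / 2))) ≤
        Real.exp ((a + b) / 2 * ((k : ℝ) * (k - 1) / 2)) *
          Real.exp (-(b * (k * (k - 1) / 2 - l * (l - 1) / 2))) := by
      rw [← Real.exp_add]
      exact Real.exp_le_exp.2 ((min_le_right _ _).trans (le_of_eq (by ring)))
    calc (k.choose l : ℝ) * (2 * ((k.descFactorial l : ℝ) * (1 / M) ^ l) *
      Real.exp (min (a * ((l : ℝ) * (l - 1) / 2))
        ((a + b) / 2 * ((k : ℝ) * (k - 1) / 2) -
          b * ((k : ℝ) * (k - 1) / 2 - (l : ℝ) * (l - 1) / 2))))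
        ≤ (k.choose l : ℝ) * (2 * ((k.factorial : ℝ) * (1 / ρ) ^ l) *
          (Real.exp ((a + b) / 2 * ((k : ℝ) * (k - 1) / 2)) *
          Real.exp (-(b * (k * (k - 1) / 2 - l * (l - 1) / 2))))) := by
          refine mul_le_mul_of_nonneg_left ?_ (by positivity)
          refine mul_le_mul ?_ h4 (Real.exp_pos _).le (by positivity)
          refine mul_le_mul_of_nonneg_left ?_ (by norm_num)
          exact mul_le_mul hdesc hMρ (by positivity) (by positivity)
      _ = 2 * (k.choose j : ℝ) * ((k.factorial : ℝ) * (1 / ρ) ^ k) *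
          Real.exp ((a + b) / 2 * ((k : ℝ) * (k - 1) / 2)) *
          (ρ ^ j * Real.exp (-(b * (k * (k - 1) / 2 - l * (l - 1) / 2)))) := by
          rw [hρl, hchoose]
          ring
      _ ≤ 2 * (k.choose j : ℝ) * (Real.exp 1 * k * ((1 + ε)⁻¹) ^ k *
          Real.exp (-((a + b) / 2 * (k * (k - 1) / 2)))) *
          Real.exp ((a + b) / 2 * ((k : ℝ) * (k - 1) / 2)) *
          ((1 + ε) * k * Real.exp (-(k - 1) / 250)) ^ j := by
          refine mul_le_mul ?_ hρj (by positivity) (by positivity)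
          refine mul_le_mul_of_nonneg_right ?_ (Real.exp_pos _).le
          exact mul_le_mul_of_nonneg_left hρk (by positivity)
      _ = _ := by
          rw [Real.exp_neg]
          field_simp

end Pool.Agent.Helper37.NoisyR
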