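import Mathlib
import Pool.Agent.Helper37.NoisyR.PartB

/-!
# Sharp bound for noise rates between 9/25 and 1/2: conclusion
-/

namespace Pool.Agent.Helper37.NoisyR

open Finset MeasureTheory ProbabilityTheory Filter

theorem nr_lim {r : ℝ} (hr0 : 0 ≤ r) (hr : r < 1) (m : ℕ) :
    Tendsto (fun k : ℕ => (k : ℝ) ^ m * r ^ k) atTop (nhds 0) :=
  tendsto_pow_const_mul_const_pow_of_abs_lt_one m (by rwa [abs_of_nonneg hr0])

theorem nr_exp_pow (c : ℝ) (k : ℕ) :
    Real.exp (-((k : ℝ) - 1) / c) = Real.exp (1 / c) * Real.exp (-1 / c) ^ k := by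
  rw [← Real.exp_nat_mul, ← Real.exp_add]
  congr 1
  ring

theorem nr_exp_lt (c : ℝ) (hc : 0 < c) : Real.exp (-1 / c) < 1 := by
  rw [Real.exp_lt_one_iff]
  exact div_neg_of_neg_of_pos (by norm_num) hc

/-- The error term of the second moment computation. -/
noncomputable def errB (ε : ℝ) (k : ℕ) : ℝ :=
  2 * ((1 + Real.exp 1 * Real.exp (-((k : ℝ) - 1) / 50)) ^ k - 1) +
    2 * Real.exp 1 * k * ((1 + ε)⁻¹) ^ k *
      (1 + (1 + ε) * k * Real.exp (-((k : ℝ) - 1) / 250)) ^ k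

theorem nr_errB_lim {ε : ℝ} (hε : 0 < ε) : Tendsto (errB ε) atTop (nhds 0) := by
  have hx : Tendsto (fun k : ℕ => (k : ℝ) * (Real.exp 1 * Real.exp (-((k : ℝ) - 1) / 50)))
      atTop (nhds 0) := by
    have h1 := (nr_lim (Real.exp_pos (-1 / 50)).le (nr_exp_lt 50 (by norm_num)) 1).const_mul
      (Real.exp 1 * Real.exp (1 / 50))
    rw [mul_zero] at h1
    refine h1.congr fun k => ?_
    rw [nr_exp_pow]
    ring
  have hy : Tendsto (fun k : ℕ => (k : ℝ) * ((1 + ε) * k * Real.exp (-((k : ℝ) - 1) / 250)))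
      atTop (nhds 0) := by
    have h1 := (nr_lim (Real.exp_pos (-1 / 250)).le (nr_exp_lt 250 (by norm_num)) 2).const_mul
      ((1 + ε) * Real.exp (1 / 250))
    rw [mul_zero] at h1
    refine h1.congr fun k => ?_
    rw [nr_exp_pow]
    ring
  have hz : Tendsto (fun k : ℕ => (k : ℝ) * ((1 + ε)⁻¹) ^ k) atTop (nhds 0) := by
    have h1 := nr_lim (r := (1 + ε)⁻¹) (by positivity) (inv_lt_one_of_one_lt₀ (by linarith)) 1
    simpa using h1
  have hup : Tendsto (fun k : ℕ =>
      2 * (Real.exp ((k : ℝ) * (Real.exp 1 * Real.exp (-((k : ℝ) - 1) / 50))) - 1) +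
      2 * Real.exp 1 * ((k : ℝ) * ((1 + ε)⁻¹) ^ k) *
        Real.exp ((k : ℝ) * ((1 + ε) * k * Real.exp (-((k : ℝ) - 1) / 250)))) atTop
      (nhds (2 * (Real.exp 0 - 1) + 2 * Real.exp 1 * 0 * Real.exp 0)) :=
    (((Real.continuous_exp.tendsto 0).comp hx).sub_const 1 |>.const_mul 2).add
      ((hz.const_mul (2 * Real.exp 1)).mul ((Real.continuous_exp.tendsto 0).comp hy))
  have h0 : 2 * (Real.exp 0 - 1) + 2 * Real.exp 1 * 0 * Real.exp 0 = (0 : ℝ) := by simp
  rw [h0] at hup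
  have hpow : ∀ (k : ℕ) (z : ℝ), 0 ≤ z → (1 + z) ^ k ≤ Real.exp ((k : ℝ) * z) := by
    intro k z hz
    rw [Real.exp_nat_mul]
    refine pow_le_pow_left₀ (by linarith) ?_ k
    have := Real.add_one_le_exp z
    linarith
  refine squeeze_zero (fun k => ?_) (fun k => ?_) hup
  · unfold errB
    have h1 : (1 : ℝ) ≤ (1 + Real.exp 1 * Real.exp (-((k : ℝ) - 1) / 50)) ^ k :=
      one_le_pow₀ (by
        have : 0 < Real.exp 1 * Real.exp (-((k : ℝ) - 1) / 50) := by positivity
        linarith)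
    have h2 : 0 ≤ 2 * Real.exp 1 * k * ((1 + ε)⁻¹) ^ k *
      (1 + (1 + ε) * k * Real.exp (-((k : ℝ) - 1) / 250)) ^ k := by positivity
    linarith
  · unfold errB
    have h1 := hpow k (Real.exp 1 * Real.exp (-((k : ℝ) - 1) / 50)) (by positivity)
    have h2 := hpow k ((1 + ε) * k * Real.exp (-((k : ℝ) - 1) / 250)) (by positivity)
    have h3 : 2 * Real.exp 1 * k * ((1 + ε)⁻¹) ^ k *
      (1 + (1 + ε) * k * Real.exp (-((k : ℝ) - 1) / 250)) ^ k ≤
      2 * Real.exp 1 * ((k : ℝ) * ((1 + ε)⁻¹) ^ k) *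
        Real.exp ((k : ℝ) * ((1 + ε) * k * Real.exp (-((k : ℝ) - 1) / 250))) := by
      rw [show 2 * Real.exp 1 * (k : ℝ) * ((1 + ε)⁻¹) ^ k =
        2 * Real.exp 1 * ((k : ℝ) * ((1 + ε)⁻¹) ^ k) by ring]
      exact mul_le_mul_of_nonneg_left h2 (by positivity)
    linarith

/-- The random part, for given `k`. -/
theorem nr_partB_core {q ε : ℝ} (hε : 0 < ε) (hq : 9 / 25 ≤ q) (hq1 : q ≤ 1 / 2) {N k : ℕ}
    (hk : 1 ≤ k) (hN2 : (k : ℝ) ^ 2 ≤ N)
    (hN : (1 + ε) * (k / Real.exp 1) * Real.exp (-Real.log (q * (1 - q)) / 2 * (k - 1) / 2) ≤ N)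
    {Ω : Type} [MeasurableSpace Ω] {μ : Measure Ω} [IsProbabilityMeasure μ]
    {G : Ω → SimpleGraph (Fin N)} (h : IsNoisy q μ G) :
    1 - errB ε k ≤
      μ.real {ω | ∃ s : Finset (Fin N), (G ω).IsNClique k s ∨ (G ω)ᶜ.IsNClique k s} := by
  classical
  have hq0 : 0 < q := by linarith
  have hk1 : (1 : ℝ) ≤ k := by exact_mod_cast hk
  have hN0 : (0 : ℝ) < N := by
    refine lt_of_lt_of_le ?_ hN2
    positivity
  obtain ⟨hc1, hc2⟩ := nr_const hq hq1
  set a : ℝ := -Real.log q with ha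
  set b : ℝ := -Real.log (1 - q) with hb
  have hb0 : 0 ≤ b := by
    have := Real.log_nonpos (x := 1 - q) (by linarith) (by linarith)
    linarith
  have hba : b ≤ a := by
    have := Real.log_le_log hq0 (show q ≤ 1 - q by linarith)
    linarith
  have hab : -Real.log (q * (1 - q)) / 2 = (a + b) / 2 := by
    rw [Real.log_mul hq0.ne' (by linarith)]
    ring
  rw [hab] at hN
  -- the weights
  have hf1 : ∑ _v : Fin N, (1 / N : ℝ) = 1 := by
    rw [sum_const, card_univ, Fintype.card_fin, nsmul_eq_mul]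
    field_simp
  have hmass : 1 / 2 ≤ (k.factorial : ℝ) *
      ∑ T ∈ (univ : Finset (Fin N)).powersetCard k, ∏ _v ∈ T, (1 / N : ℝ) := by
    have h1 := nr_es_ge (f := fun _ : Fin N => (1 / N : ℝ)) (fun _ => by positivity) univ hf1
      (δ := 1 / N) (fun _ _ => le_rfl) (by positivity) k
    refine le_trans ?_ h1
    have h2 : (k : ℝ) ^ 2 / 2 * (1 / N) ≤ 1 / 2 := by
      rw [mul_one_div, div_le_iff₀ hN0]
      linarith
    linarith
  obtain ⟨w, hw, hw1, hwG, hspread⟩ := nr_weight (f := fun _ : Fin N => (1 / N : ℝ))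
    (fun _ => by positivity) hf1 (δ := 1 / N) (fun _ => le_rfl) k _
    (fun T hT => (mem_powersetCard.1 hT).2) hmass
  have hwk : ∀ S, w S ≠ 0 → S.card = k := fun S hS => (mem_powersetCard.1 (hwG S hS).1).2
  obtain ⟨τ, hτ⟩ := nr_costB hq0 hq1 h
  have key := nr_hom_sm hq0 h w hw hw1 hwk τ
    (fun l => 2 * ((k.descFactorial l : ℝ) * (1 / N : ℝ) ^ l)) (fun l => by positivity)
    hspread
    (fun l => min (a * ((l : ℝ) * (l - 1) / 2))
        ((a + b) / 2 * ((k : ℝ) * (k - 1) / 2) -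
          b * ((k : ℝ) * (k - 1) / 2 - (l : ℝ) * (l - 1) / 2)))
    (fun S hS L hL _ => by
      have h1 := hτ S L hL
      rw [hwk S hS, hab] at h1
      exact h1)
  refine le_trans ?_ key
  have hsum : ∑ l ∈ range (k + 1), (if 2 ≤ l then (k.choose l : ℝ) *
      (2 * ((k.descFactorial l : ℝ) * (1 / N : ℝ) ^ l) *
        Real.exp (min (a * ((l : ℝ) * (l - 1) / 2))
        ((a + b) / 2 * ((k : ℝ) * (k - 1) / 2) -
          b * ((k : ℝ) * (k - 1) / 2 - (l : ℝ) * (l - 1) / 2)))) else 0) ≤ errB ε k := by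
    set x : ℝ := Real.exp 1 * Real.exp (-((k : ℝ) - 1) / 50) with hx
    set y : ℝ := (1 + ε) * k * Real.exp (-((k : ℝ) - 1) / 250) with hy
    set z : ℝ := 2 * Real.exp 1 * k * ((1 + ε)⁻¹) ^ k with hz
    have hx0 : 0 ≤ x := by positivity
    have hy0 : 0 ≤ y := by positivity
    have hz0 : 0 ≤ z := by positivity
    have h1 : ∀ l ∈ range (k + 1), (if 2 ≤ l then (k.choose l : ℝ) *
      (2 * ((k.descFactorial l : ℝ) * (1 / N : ℝ) ^ l) *
        Real.exp (min (a * ((l : ℝ) * (l - 1) / 2))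
        ((a + b) / 2 * ((k : ℝ) * (k - 1) / 2) -
          b * ((k : ℝ) * (k - 1) / 2 - (l : ℝ) * (l - 1) / 2)))) else 0) ≤
        (2 * ((k.choose l : ℝ) * x ^ l) - if l = 0 then 2 else 0) +
          z * ((k.choose (k - l) : ℝ) * y ^ (k - l)) := by
      intro l hl
      rw [mem_range] at hl
      split_ifs with h2 h3 h3
      · omega
      · have := nr_termB hε hc1 hc2 hb0 hba hk h2 (by omega) hN
        rw [sub_zero]
        exact this
      · subst h3
        have : 0 ≤ z * ((k.choose (k - 0) : ℝ) * y ^ (k - 0)) := by positivity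
        simp only [Nat.choose_zero_right, Nat.cast_one, pow_zero, mul_one, sub_self, zero_add]
        exact this
      · rw [sub_zero]
        positivity
    refine (sum_le_sum h1).trans ?_
    rw [sum_add_distrib, sum_sub_distrib, ← mul_sum, ← mul_sum]
    have h4 : ∑ l ∈ range (k + 1), (k.choose l : ℝ) * x ^ l = (1 + x) ^ k := by
      rw [add_comm 1 x, add_pow]
      refine sum_congr rfl fun l _ => ?_
      rw [one_pow]
      ring
    have h5 : ∑ l ∈ range (k + 1), (k.choose (k - l) : ℝ) * y ^ (k - l) = (1 + y) ^ k := by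
      have h6 := sum_range_reflect (fun l => (k.choose l : ℝ) * y ^ l) (k + 1)
      have h7 : ∑ l ∈ range (k + 1), (k.choose l : ℝ) * y ^ l = (1 + y) ^ k := by
        rw [add_comm 1 y, add_pow]
        refine sum_congr rfl fun l _ => ?_
        rw [one_pow]
        ring
      rw [← h7, ← h6]
      refine sum_congr rfl fun l hl => ?_
      have : k + 1 - 1 - l = k - l := by omega
      rw [this]
    have h8 : ∑ l ∈ range (k + 1), (if l = 0 then (2 : ℝ) else 0) = 2 := by
      rw [sum_ite_eq' (range (k + 1)) 0 (fun _ => (2 : ℝ)), if_pos (mem_range.2 (by omega))]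
    rw [h4, h5, h8]
    unfold errB
    linarith
  linarith

/-- **Part B.** -/
theorem nr_partB {ε : ℝ} (hε : 0 < ε) :
    ∀ᶠ k : ℕ in atTop, ∀ q : ℝ, 9 / 25 ≤ q → q ≤ 1 / 2 → ∀ N : ℕ,
      (1 + ε) * (k / Real.exp 1) * (q * (1 - q)) ^ (-((k : ℝ) - 1) / 4) ≤ N → Hom q ε N k := by
  have h1 : ∀ᶠ k : ℕ in atTop, errB ε k ≤ ε := (nr_errB_lim hε).eventually_le_const hε
  have h2 : ∀ᶠ k : ℕ in atTop, (k : ℝ) ^ 1 * Real.exp (-1 / 4) ^ k ≤
      Real.exp (-1) * Real.exp (-1 / 4) :=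
    (nr_lim (Real.exp_pos (-1 / 4)).le (nr_exp_lt 4 (by norm_num)) 1).eventually_le_const
      (by positivity)
  filter_upwards [h1, h2, eventually_ge_atTop 1] with k h1 h2 hk q hq hq1 N hN
  intro Ω _ μ _ G h
  have hq0 : 0 < q := by linarith
  have hqq : 0 < q * (1 - q) := by nlinarith
  have hk1 : (1 : ℝ) ≤ k := by exact_mod_cast hk
  have h3 : (q * (1 - q)) ^ (-((k : ℝ) - 1) / 4) =
      Real.exp (-Real.log (q * (1 - q)) / 2 * (k - 1) / 2) := by
    rw [Real.rpow_def_of_pos hqq]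
    congr 1
    ring
  rw [h3] at hN
  have hN2 : (k : ℝ) ^ 2 ≤ N := by
    refine le_trans ?_ hN
    have h4 : 1 ≤ -Real.log (q * (1 - q)) := by
      have h5 : q * (1 - q) ≤ 1 / 4 := by nlinarith [sq_nonneg (q - 1 / 2)]
      have h6 := Real.log_le_log hqq h5
      have h7 : Real.log (1 / 4) ≤ -1 := by
        have h8 : (1 / 4 : ℝ) ≤ Real.exp (-1) := by
          rw [Real.exp_neg, one_div]
          refine inv_anti₀ (Real.exp_pos _) ?_
          have := Real.exp_one_lt_d9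
          linarith
        have h9 := Real.log_le_log (by norm_num) h8
        rwa [Real.log_exp] at h9
      linarith
    have h5 : Real.exp (((k : ℝ) - 1) / 4) ≤
        Real.exp (-Real.log (q * (1 - q)) / 2 * (k - 1) / 2) := by
      refine Real.exp_le_exp.2 ?_
      have := mul_le_mul_of_nonneg_right h4 (show (0 : ℝ) ≤ k - 1 by linarith)
      linarith
    have h6 : (k : ℝ) * Real.exp 1 ≤ Real.exp (((k : ℝ) - 1) / 4) := by
      have h7 : Real.exp (((k : ℝ) - 1) / 4) = Real.exp (-1 / 4) * (Real.exp (-1 / 4) ^ k)⁻¹ := by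
        rw [← Real.exp_nat_mul, ← Real.exp_neg, ← Real.exp_add]
        congr 1
        ring
      rw [h7, ← div_eq_mul_inv, le_div_iff₀ (by positivity)]
      rw [pow_one] at h2
      have h8 : Real.exp (-1) * Real.exp 1 = 1 := by
        rw [← Real.exp_add]
        simp
      calc (k : ℝ) * Real.exp 1 * Real.exp (-1 / 4) ^ k
          = Real.exp 1 * (k * Real.exp (-1 / 4) ^ k) := by ring
        _ ≤ Real.exp 1 * (Real.exp (-1) * Real.exp (-1 / 4)) :=
            mul_le_mul_of_nonneg_left h2 (Real.exp_pos _).le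
        _ = (Real.exp (-1) * Real.exp 1) * Real.exp (-1 / 4) := by ring
        _ = _ := by rw [h8, one_mul]
    calc (k : ℝ) ^ 2 = 1 * (k / Real.exp 1) * (k * Real.exp 1) := by
          field_simp
      _ ≤ (1 + ε) * (k / Real.exp 1) *
          Real.exp (-Real.log (q * (1 - q)) / 2 * (k - 1) / 2) := by
          refine mul_le_mul ?_ (h6.trans h5) (by positivity) (by positivity)
          exact mul_le_mul_of_nonneg_right (by linarith) (by positivity)
  have h4 := nr_partB_core hε hq hq1 hk hN2 hN h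
  linarith

end Pool.Agent.Helper37.NoisyR
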