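import Mathlib
import Pool.Agent.Helper37.NoisyR.PartB2

/-!
# The uniform random graph: first moment lower bound
-/

namespace Pool.Agent.Helper37.NoisyR

open Finset MeasureTheory ProbabilityTheory Filter

/-- A fair coin. -/
noncomputable def coin : Measure Bool :=
  ENNReal.ofReal (1 / 2) • Measure.dirac true + ENNReal.ofReal (1 / 2) • Measure.dirac false

theorem nr_coin_prob : IsProbabilityMeasure coin := by
  constructor
  unfold coin
  simp only [Measure.add_apply, Measure.smul_apply, Measure.dirac_apply_of_mem (Set.mem_univ _),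
    smul_eq_mul, mul_one]
  rw [← ENNReal.ofReal_add (by norm_num) (by norm_num)]
  norm_num

theorem nr_coin_true : coin {true} = ENNReal.ofReal (1 / 2) := by
  unfold coin
  simp only [Measure.add_apply, Measure.smul_apply, smul_eq_mul]
  rw [Measure.dirac_apply' _ (MeasurableSet.singleton true),
    Measure.dirac_apply' _ (MeasurableSet.singleton true)]
  simp

/-- The uniform random graph on `Fin N`. -/
def GU (N : ℕ) (ω : Ed N → Bool) : SimpleGraph (Fin N) where
  Adj i j := (∃ h : i < j, ω ⟨(i, j), h⟩ = true) ∨ (∃ h : j < i, ω ⟨(j, i), h⟩ = true)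
  symm := ⟨fun _ _ h => h.elim Or.inr Or.inl⟩
  loopless := ⟨fun _ h => h.elim (fun ⟨h, _⟩ => lt_irrefl _ h) (fun ⟨h, _⟩ => lt_irrefl _ h)⟩

theorem nr_GU_adj {N : ℕ} (ω : Ed N → Bool) (e : Ed N) :
    (GU N ω).Adj e.1.1 e.1.2 ↔ ω e = true := by
  constructor
  · rintro (⟨_, h⟩ | ⟨h', _⟩)
    · exact h
    · exact absurd h' (lt_asymm e.2)
  · intro h
    exact Or.inl ⟨e.2, h⟩

/-- The law of the uniform random graph. -/
noncomputable def muU (N : ℕ) : Measure (Ed N → Bool) := Measure.pi fun _ => coin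

theorem nr_muU_prob (N : ℕ) : IsProbabilityMeasure (muU N) := by
  have := nr_coin_prob
  unfold muU
  infer_instance

theorem nr_muU_event {N : ℕ} (e : Ed N) : (muU N) {ω | ω e = true} = ENNReal.ofReal (1 / 2) := by
  have := nr_coin_prob
  have h1 : {ω : Ed N → Bool | ω e = true} = (fun ω => ω e) ⁻¹' {true} := rfl
  have h2 : Measure.map (fun ω : Ed N → Bool => ω e) (muU N) = coin :=
    (measurePreserving_eval (fun _ : Ed N => coin) e).map_eq
  rw [h1, ← Measure.map_apply (measurable_pi_apply e) (MeasurableSet.singleton true), h2,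
    nr_coin_true]

theorem nr_muU_indep (N : ℕ) : iIndepSet (fun e : Ed N => {ω | ω e = true}) (muU N) := by
  have := nr_coin_prob
  have h1 : iIndepFun (fun (e : Ed N) (ω : Ed N → Bool) => ω e) (muU N) := by
    have := iIndepFun_pi (μ := fun _ : Ed N => coin) (X := fun _ b => b)
      (fun _ => aemeasurable_id)
    exact this
  rw [iIndepSet_iff_meas_biInter]
  · intro s
    have h2 := h1.measure_inter_preimage_eq_mul s (sets := fun _ => {true})
      (fun _ _ => MeasurableSet.singleton true)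
    exact h2
  · intro e
    exact MeasurableSet.of_discrete

theorem nr_GU_meas {N : ℕ} (i j : Fin N) : MeasurableSet {ω | (GU N ω).Adj i j} :=
  MeasurableSet.of_discrete

theorem nr_GU_noisy {N : ℕ} {q : ℝ} (hq : q ≤ 1 / 2) : IsNoisy q (muU N) (GU N) := by
  have hval : ∀ i j : Fin N, i ≠ j → (muU N).real {ω | (GU N ω).Adj i j} = 1 / 2 := by
    have key : ∀ e : Ed N, (muU N).real {ω | (GU N ω).Adj e.1.1 e.1.2} = 1 / 2 := by
      intro e
      have h1 : {ω | (GU N ω).Adj e.1.1 e.1.2} = {ω : Ed N → Bool | ω e = true} := by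
        ext ω
        exact nr_GU_adj ω e
      rw [h1, Measure.real, nr_muU_event, ENNReal.toReal_ofReal (by norm_num)]
    intro i j hij
    rcases lt_or_gt_of_ne hij with h | h
    · exact key ⟨(i, j), h⟩
    · have := key ⟨(j, i), h⟩
      simp_rw [SimpleGraph.adj_comm _ i j]
      exact this
  refine ⟨nr_GU_meas, ?_, fun i j hij => ?_, fun i j hij => ?_⟩
  · have h1 : (fun e : {p : Fin N × Fin N // p.1 < p.2} =>
        {ω | (GU N ω).Adj e.1.1 e.1.2}) = fun e : Ed N => {ω | ω e = true} := by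
      funext e
      ext ω
      exact nr_GU_adj ω e
    rw [h1]
    exact nr_muU_indep N
  · rw [hval i j hij]
    exact hq
  · rw [hval i j hij]
    linarith

/-- First moment bound. -/
theorem nr_first_moment (N k : ℕ) :
    (muU N).real {ω | ∃ s : Finset (Fin N), (GU N ω).IsNClique k s ∨ (GU N ω)ᶜ.IsNClique k s} ≤
      2 * ((N : ℝ) * (Real.exp 1 / k) * (2 : ℝ) ^ (-((k : ℝ) - 1) / 2)) ^ k := by
  have := nr_muU_prob N
  have h := nr_GU_noisy (N := N) (q := 1 / 2) le_rfl
  have hE : ∀ (b : Bool) (S : Finset (Fin N)), S.card = k →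
      (muU N).real (⋂ e ∈ DS S, ev (EE (GU N)) b e) =
        ((2 : ℝ) ^ (-((k : ℝ) - 1) / 2)) ^ k := by
    intro b S hS
    have h0 : (muU N).real (⋂ e ∈ DS S, ev (EE (GU N)) b e) =
        ∏ e ∈ DS S, pr (muU N) (EE (GU N)) b e := nr_indep h.indep (fun _ => b) (DS S)
    rw [h0]
    have h1 : ∀ e ∈ DS S, pr (muU N) (EE (GU N)) b e = 1 / 2 := by
      intro e _
      rw [nr_pr_eq h]
      have h2 := nr_pp_lower h b e.2.ne
      have h3 := nr_pp_upper h b e.2.ne
      linarith
    rw [prod_congr rfl h1, prod_const, ← Real.rpow_natCast (1 / 2 : ℝ) (DS S).card, nr_DS_card,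
      hS, one_div, Real.inv_rpow (by norm_num), ← Real.rpow_neg (by norm_num),
      ← Real.rpow_natCast, ← Real.rpow_mul (by norm_num)]
    congr 1
    ring
  have hsub : {ω | ∃ s : Finset (Fin N), (GU N ω).IsNClique k s ∨ (GU N ω)ᶜ.IsNClique k s} ⊆
      ⋃ S ∈ (univ : Finset (Fin N)).powersetCard k, ((⋂ e ∈ DS S, ev (EE (GU N)) true e) ∪
        (⋂ e ∈ DS S, ev (EE (GU N)) false e)) := by
    rintro ω ⟨S, hS⟩
    simp only [Set.mem_iUnion]
    rcases hS with hS | hS
    · refine ⟨S, mem_powersetCard.2 ⟨subset_univ _, hS.card_eq⟩, Or.inl ?_⟩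
      refine Set.mem_iInter₂.2 fun e he => ?_
      rw [nr_mem_DS] at he
      exact hS.isClique he.1 he.2 e.2.ne
    · refine ⟨S, mem_powersetCard.2 ⟨subset_univ _, hS.card_eq⟩, Or.inr ?_⟩
      refine Set.mem_iInter₂.2 fun e he => ?_
      rw [nr_mem_DS] at he
      have := hS.isClique he.1 he.2 e.2.ne
      rw [SimpleGraph.compl_adj] at this
      exact this.2
  have h1 := measureReal_mono (μ := muU N) hsub (measure_ne_top _ _)
  have h2 := measureReal_biUnion_finset_le (μ := muU N)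
    ((univ : Finset (Fin N)).powersetCard k) (fun S => (⋂ e ∈ DS S, ev (EE (GU N)) true e) ∪
        (⋂ e ∈ DS S, ev (EE (GU N)) false e))
  have h3 : ∑ S ∈ (univ : Finset (Fin N)).powersetCard k,
      (muU N).real ((⋂ e ∈ DS S, ev (EE (GU N)) true e) ∪
        (⋂ e ∈ DS S, ev (EE (GU N)) false e)) ≤
      ∑ S ∈ (univ : Finset (Fin N)).powersetCard k,
        (2 * ((2 : ℝ) ^ (-((k : ℝ) - 1) / 2)) ^ k) := by
    refine sum_le_sum fun S hS => ?_
    have hc := (mem_powersetCard.1 hS).2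
    refine (measureReal_union_le _ _).trans ?_
    rw [hE true S hc, hE false S hc]
    linarith
  rw [sum_const, card_powersetCard, card_univ, Fintype.card_fin, nsmul_eq_mul] at h3
  refine (h1.trans (h2.trans h3)).trans ?_
  have h4 : (N.choose k : ℝ) ≤ (N * (Real.exp 1 / k)) ^ k := by
    have h5 : (N.choose k : ℝ) ≤ (N : ℝ) ^ k / k.factorial := Nat.choose_le_pow_div k N
    refine h5.trans ?_
    rcases Nat.eq_zero_or_pos k with rfl | hk
    · simp
    have hk' : (0 : ℝ) < k := by exact_mod_cast hk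
    have h6 : ((k : ℝ) / Real.exp 1) ^ k ≤ k.factorial := by
      have h7 := Stirling.le_factorial_stirling k
      refine le_trans ?_ h7
      have h8 : (1 : ℝ) ≤ Real.sqrt (2 * Real.pi * k) := by
        rw [Real.one_le_sqrt]
        have h9 := Real.pi_gt_three
        have h10 : (1 : ℝ) ≤ k := by exact_mod_cast hk
        nlinarith
      have h9 : 0 ≤ ((k : ℝ) / Real.exp 1) ^ k := by positivity
      nlinarith
    rw [div_le_iff₀ (by positivity)]
    calc (N : ℝ) ^ k = (N * (Real.exp 1 / k)) ^ k * ((k : ℝ) / Real.exp 1) ^ k := by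
          rw [← mul_pow]
          congr 1
          field_simp
      _ ≤ _ := mul_le_mul_of_nonneg_left h6 (by positivity)
  calc (N.choose k : ℝ) * (2 * ((2 : ℝ) ^ (-((k : ℝ) - 1) / 2)) ^ k)
      ≤ (N * (Real.exp 1 / k)) ^ k * (2 * ((2 : ℝ) ^ (-((k : ℝ) - 1) / 2)) ^ k) :=
        mul_le_mul_of_nonneg_right h4 (by positivity)
    _ = _ := by
        rw [mul_pow _ ((2 : ℝ) ^ (-((k : ℝ) - 1) / 2))]
        ring

/-- Below the first moment threshold the uniform random graph has no homogeneous set. -/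
theorem nr_lower {ε : ℝ} (hε : 0 < ε) (hε1 : ε < 1) :
    ∀ᶠ k : ℕ in atTop, ∀ q : ℝ, q ≤ 1 / 2 → ∀ N : ℕ,
      (N : ℝ) ≤ (1 - ε) * (k / Real.exp 1) * (2 : ℝ) ^ (((k : ℝ) - 1) / 2) →
      ¬ Hom q (1 / 2) N k := by
  have h1 : ∀ᶠ k : ℕ in atTop, (1 - ε) ^ k < 1 / 4 :=
    (tendsto_pow_atTop_nhds_zero_of_lt_one (by linarith) (by linarith)).eventually_lt_const
      (by norm_num)
  filter_upwards [h1, eventually_ge_atTop 1] with k h1 hk q hq N hN hcon
  have hk' : (0 : ℝ) < k := by exact_mod_cast hk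
  have := nr_muU_prob N
  have h2 := hcon _ (muU N) (GU N) (nr_GU_noisy hq)
  have h3 := nr_first_moment N k
  have h4 : (N : ℝ) * (Real.exp 1 / k) * (2 : ℝ) ^ (-((k : ℝ) - 1) / 2) ≤ 1 - ε := by
    calc (N : ℝ) * (Real.exp 1 / k) * (2 : ℝ) ^ (-((k : ℝ) - 1) / 2)
        ≤ ((1 - ε) * (k / Real.exp 1) * (2 : ℝ) ^ (((k : ℝ) - 1) / 2)) *
          (Real.exp 1 / k) * (2 : ℝ) ^ (-((k : ℝ) - 1) / 2) := by
          refine mul_le_mul_of_nonneg_right (mul_le_mul_of_nonneg_right hN (by positivity))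
            (by positivity)
      _ = (1 - ε) * ((2 : ℝ) ^ (((k : ℝ) - 1) / 2) * (2 : ℝ) ^ (-((k : ℝ) - 1) / 2)) := by
          field_simp
      _ = 1 - ε := by
          rw [← Real.rpow_add (by norm_num)]
          have : ((k : ℝ) - 1) / 2 + -((k : ℝ) - 1) / 2 = 0 := by ring
          rw [this, Real.rpow_zero, mul_one]
  have h5 := pow_le_pow_left₀ (by positivity) h4 k
  linarith

end Pool.Agent.Helper37.NoisyR
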