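import Mathlib

/-!
# A two-colour energy lemma

For two symmetric cost functions on a finite set whose sum is at most `2κ`, one of them has a
spread probability vector all of whose potentials are at most `κ + ε`.
-/

namespace Pool.Agent.Helper37.NoisyR

open Finset

section

variable {V : Type} [Fintype V]

/-- Probability vectors with all entries at most `2 ^ r / |V|`. -/
def nrD (V : Type) [Fintype V] (r : ℕ) : Set (V → ℝ) :=
  {f | (∀ i, 0 ≤ f i) ∧ ∑ i, f i = 1 ∧ ∀ i, f i ≤ 2 ^ r / Fintype.card V}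

/-- The bilinear form of a cost function. -/
def nrB (c : V → V → ℝ) (f g : V → ℝ) : ℝ := ∑ i, f i * ∑ j, g j * c i j

theorem nrB_comm {c : V → V → ℝ} (hc : ∀ i j, c i j = c j i) (f g : V → ℝ) :
    nrB c f g = nrB c g f := by
  unfold nrB
  simp_rw [mul_sum]
  rw [sum_comm]
  refine sum_congr rfl fun i _ => sum_congr rfl fun j _ => ?_
  rw [hc i j]
  ring

theorem nrB_exp {c : V → V → ℝ} (hc : ∀ i j, c i j = c j i) (f g : V → ℝ) (t : ℝ) :
    nrB c (fun i => (1 - t) * f i + t * g i) (fun i => (1 - t) * f i + t * g i) =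
      (1 - t) ^ 2 * nrB c f f + 2 * t * (1 - t) * nrB c f g + t ^ 2 * nrB c g g := by
  have h : nrB c (fun i => (1 - t) * f i + t * g i) (fun i => (1 - t) * f i + t * g i) =
      (1 - t) ^ 2 * nrB c f f + t * (1 - t) * nrB c f g + t * (1 - t) * nrB c g f +
        t ^ 2 * nrB c g g := by
    unfold nrB
    simp_rw [mul_sum, ← sum_add_distrib]
    refine sum_congr rfl fun i _ => sum_congr rfl fun j _ => ?_
    ring
  rw [h, nrB_comm hc g f]
  ring

theorem nrB_nonneg {c : V → V → ℝ} (hc : ∀ i j, 0 ≤ c i j) {f g : V → ℝ}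
    (hf : ∀ i, 0 ≤ f i) (hg : ∀ i, 0 ≤ g i) : 0 ≤ nrB c f g :=
  sum_nonneg fun i _ => mul_nonneg (hf i) (sum_nonneg fun j _ => mul_nonneg (hg j) (hc i j))

theorem nrB_le {c : V → V → ℝ} {a : ℝ} (hc : ∀ i j, c i j ≤ a) {f g : V → ℝ}
    (hf : ∀ i, 0 ≤ f i) (hg : ∀ i, 0 ≤ g i) (hf1 : ∑ i, f i = 1) (hg1 : ∑ i, g i = 1) :
    nrB c f g ≤ a := by
  unfold nrB
  calc ∑ i, f i * ∑ j, g j * c i j ≤ ∑ i, f i * ∑ j, g j * a :=
        sum_le_sum fun i _ => mul_le_mul_of_nonneg_left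
          (sum_le_sum fun j _ => mul_le_mul_of_nonneg_left (hc i j) (hg j)) (hf i)
    _ = a := by rw [← sum_mul, ← sum_mul, hf1, hg1]; ring

theorem nrD_unif [Nonempty V] (r : ℕ) : (fun _ => 1 / (Fintype.card V : ℝ)) ∈ nrD V r := by
  have h : (0 : ℝ) < Fintype.card V := by exact_mod_cast Fintype.card_pos
  refine ⟨fun _ => by positivity, ?_, fun _ => ?_⟩
  · rw [sum_const, card_univ, nsmul_eq_mul]
    field_simp
  · exact div_le_div_of_nonneg_right (one_le_pow₀ (by norm_num)) h.le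

theorem nrD_mono {r s : ℕ} (h : r ≤ s) : nrD V r ⊆ nrD V s := by
  rintro f ⟨h1, h2, h3⟩
  refine ⟨h1, h2, fun i => (h3 i).trans ?_⟩
  exact div_le_div_of_nonneg_right (pow_le_pow_right₀ (by norm_num) h) (Nat.cast_nonneg _)

/-- Infimum of the energy at scale `r`. -/
noncomputable def nrE (c : V → V → ℝ) (r : ℕ) : ℝ := sInf ((fun f => nrB c f f) '' nrD V r)

theorem nrE_le {c : V → V → ℝ} (hc : ∀ i j, 0 ≤ c i j) {r : ℕ} {f : V → ℝ} (hf : f ∈ nrD V r) :
    nrE c r ≤ nrB c f f := by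
  refine csInf_le ⟨0, ?_⟩ ⟨f, hf, rfl⟩
  rintro _ ⟨g, hg, rfl⟩
  exact nrB_nonneg hc hg.1 hg.1

theorem nrE_near [Nonempty V] (c : V → V → ℝ) (r : ℕ) {η : ℝ} (hη : 0 < η) :
    ∃ f ∈ nrD V r, nrB c f f ≤ nrE c r + η := by
  obtain ⟨_, ⟨f, hf, rfl⟩, h⟩ := exists_lt_of_csInf_lt
    (s := (fun f => nrB c f f) '' nrD V r) ⟨_, ⟨_, nrD_unif r, rfl⟩⟩
    (show sInf ((fun f => nrB c f f) '' nrD V r) < nrE c r + η by
      unfold nrE
      linarith)
  exact ⟨f, hf, h.le⟩

theorem nrE_nonneg [Nonempty V] {c : V → V → ℝ} (hc : ∀ i j, 0 ≤ c i j) (r : ℕ) :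
    0 ≤ nrE c r := by
  refine le_csInf ⟨_, ⟨_, nrD_unif r, rfl⟩⟩ ?_
  rintro _ ⟨g, hg, rfl⟩
  exact nrB_nonneg hc hg.1 hg.1

theorem nrE_anti [Nonempty V] {c : V → V → ℝ} (hc : ∀ i j, 0 ≤ c i j) (r : ℕ) :
    nrE c (r + 1) ≤ nrE c r := by
  refine le_csInf ⟨_, ⟨_, nrD_unif r, rfl⟩⟩ ?_
  rintro _ ⟨g, hg, rfl⟩
  exact nrE_le hc (nrD_mono (Nat.le_succ r) hg)

theorem nr_scale [Nonempty V] {c : Bool → V → V → ℝ} {a η : ℝ} (hc : ∀ b i j, 0 ≤ c b i j)
    (hca : ∀ b i j, c b i j ≤ a) {R : ℕ} (hR : 2 * a < R * η) :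
    ∃ r < R, ∀ b, nrE (c b) r ≤ nrE (c b) (r + 1) + η := by
  by_contra hcon
  push Not at hcon
  have h1 : ∀ r ∈ range R, η ≤ (nrE (c true) r - nrE (c true) (r + 1)) +
      (nrE (c false) r - nrE (c false) (r + 1)) := by
    intro r hr
    obtain ⟨b, hb⟩ := hcon r (mem_range.1 hr)
    have h2 := nrE_anti (hc true) r
    have h3 := nrE_anti (hc false) r
    cases b <;> linarith
  have h2 := sum_le_sum h1
  rw [sum_const, card_range, nsmul_eq_mul, sum_add_distrib, sum_range_sub', sum_range_sub'] at h2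
  have h3 : ∀ b, nrE (c b) 0 ≤ a := fun b =>
    (nrE_le (hc b) (nrD_unif 0)).trans (nrB_le (hca b) (nrD_unif 0).1 (nrD_unif 0).1
      (nrD_unif 0).2.1 (nrD_unif 0).2.1)
  have h4 := h3 true
  have h5 := h3 false
  have h6 := nrE_nonneg (hc true) R
  have h7 := nrE_nonneg (hc false) R
  linarith

/-- First order condition. -/
theorem nr_first [Nonempty V] {c : V → V → ℝ} {a t : ℝ} (hc : ∀ i j, 0 ≤ c i j)
    (hca : ∀ i j, c i j ≤ a) (hsym : ∀ i j, c i j = c j i) (ht0 : 0 < t) (ht : t ≤ 1 / 2)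
    {r : ℕ} (hr : nrE c r ≤ nrE c (r + 1) + t ^ 2) {f g : V → ℝ} (hf : f ∈ nrD V r)
    (hfE : nrB c f f ≤ nrE c r + t ^ 2) (hg : g ∈ nrD V (r + 1)) :
    nrB c f f - (2 + a) * t ≤ nrB c f g := by
  have hf' := nrD_mono (Nat.le_succ r) hf
  have hmix : (fun i => (1 - t) * f i + t * g i) ∈ nrD V (r + 1) := by
    refine ⟨fun i => ?_, ?_, fun i => ?_⟩
    · have := hf.1 i
      have := hg.1 i
      have : 0 ≤ 1 - t := by linarith
      positivity
    · rw [sum_add_distrib, ← mul_sum, ← mul_sum, hf.2.1, hg.2.1]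
      ring
    · have h1 := hf'.2.2 i
      have h2 := hg.2.2 i
      have h3 : 0 ≤ 1 - t := by linarith
      have h4 := mul_le_mul_of_nonneg_left h1 h3
      have h5 := mul_le_mul_of_nonneg_left h2 ht0.le
      have h6 : (1 - t) * (2 ^ (r + 1) / (Fintype.card V : ℝ)) +
        t * (2 ^ (r + 1) / (Fintype.card V : ℝ)) = 2 ^ (r + 1) / Fintype.card V := by ring
      simp only [Nat.succ_eq_add_one] at h4
      linarith
  have h1 := nrE_le hc hmix
  rw [nrB_exp hsym] at h1
  have h2 := nrB_le hca hg.1 hg.1 hg.2.1 hg.2.1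
  have h3 := nrB_nonneg hc hf.1 hf.1
  have ha : 0 ≤ a := h3.trans (nrB_le hca hf.1 hf.1 hf.2.1 hf.2.1)
  have h4 : t ^ 2 * nrB c g g ≤ t ^ 2 * a := mul_le_mul_of_nonneg_left h2 (sq_nonneg t)
  have h5 : 2 * t * (1 - t) * (nrB c f f - nrB c f g) ≤ (2 + a) * t ^ 2 - t ^ 2 * nrB c f f := by
    nlinarith
  by_contra hcon
  push Not at hcon
  have h6 : (2 + a) * t < nrB c f f - nrB c f g := by linarith
  have h7 : 0 < 2 * t * (1 - t) := by
    have : 0 < 1 - t := by linarith
    positivity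
  have h8 := mul_lt_mul_of_pos_left h6 h7
  have h9 : 0 ≤ t ^ 2 * nrB c f f := by positivity
  have h10 : (2 + a) * t ^ 2 ≤ 2 * t * (1 - t) * ((2 + a) * t) := by
    have : 2 * t * (1 - t) * ((2 + a) * t) = (2 + a) * t ^ 2 * (2 * (1 - t)) := by ring
    rw [this]
    have h11 : 0 ≤ (2 + a) * t ^ 2 := by positivity
    nlinarith
  linarith

/-- Removing the vertices of large potential. -/
theorem nr_remove [Nonempty V] {c : V → V → ℝ} (hc : ∀ i j, 0 ≤ c i j) {r : ℕ} {f : V → ℝ}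
    (hf : f ∈ nrD V r) {η ε : ℝ} (hη : 0 ≤ η) (hε : 0 < ε) (hηε : 2 * η ≤ ε)
    (hfirst : ∀ g ∈ nrD V (r + 1), nrB c f f - η ≤ nrB c g f) :
    ∃ β : ℝ, 0 ≤ β ∧ β ≤ 1 / 2 ∧ β * ε ≤ η ∧ ∃ g ∈ nrD V (r + 1),
      ∀ i, g i ≠ 0 → ∑ j, g j * c i j ≤ (nrB c f f + ε) / (1 - β) := by
  classical
  set E := nrB c f f with hE
  set U : V → ℝ := fun i => ∑ j, f j * c i j with hU
  set H : Finset V := univ.filter fun i => E + ε < U i with hH
  set β : ℝ := ∑ i ∈ H, f i with hβ
  have hβ0 : 0 ≤ β := sum_nonneg fun i _ => hf.1 i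
  have hsplit : ∀ φ : V → ℝ, ∑ i, φ i = ∑ i ∈ H, φ i + ∑ i ∈ Hᶜ, φ i := fun φ =>
    (sum_add_sum_compl H φ).symm
  have hβ1 : ∑ i ∈ Hᶜ, f i = 1 - β := by
    have := hsplit f
    rw [hf.2.1] at this
    linarith
  have hβle : β ≤ 1 := by
    have : 0 ≤ ∑ i ∈ Hᶜ, f i := sum_nonneg fun i _ => hf.1 i
    linarith
  have hEU : E = ∑ i ∈ H, f i * U i + ∑ i ∈ Hᶜ, f i * U i := hsplit fun i => f i * U i
  have hHU : β * (E + ε) ≤ ∑ i ∈ H, f i * U i := by
    rw [hβ, sum_mul]
    refine sum_le_sum fun i hi => mul_le_mul_of_nonneg_left ?_ (hf.1 i)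
    exact (mem_filter.1 hi).2.le
  have hE0 : 0 ≤ E := nrB_nonneg hc hf.1 hf.1
  have hpow : (2 : ℝ) ^ (r + 1) / Fintype.card V = 2 * (2 ^ r / Fintype.card V) := by
    rw [pow_succ]
    ring
  by_cases hb : β ≤ 1 / 2
  · have h1β : 0 < 1 - β := by linarith
    set g : V → ℝ := fun i => if i ∈ H then 0 else f i / (1 - β) with hg
    have hgD : g ∈ nrD V (r + 1) := by
      refine ⟨fun i => ?_, ?_, fun i => ?_⟩
      · simp only [hg]
        split_ifs
        · exact le_rfl
        · exact div_nonneg (hf.1 i) h1β.le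
      · rw [hsplit g]
        have h1 : ∑ i ∈ H, g i = 0 := sum_eq_zero fun i hi => by simp only [hg, if_pos hi]
        have h2 : ∑ i ∈ Hᶜ, g i = ∑ i ∈ Hᶜ, f i / (1 - β) :=
          sum_congr rfl fun i hi => by
            simp only [hg]
            rw [if_neg (mem_compl.1 hi)]
        rw [h1, h2, ← sum_div, hβ1, zero_add, div_self h1β.ne']
      · rw [hpow]
        have h1 := hf.2.2 i
        have h2 := hf.1 i
        simp only [hg]
        split_ifs
        · linarith
        · rw [div_le_iff₀ h1β]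
          have : 0 ≤ (2 : ℝ) ^ r / Fintype.card V := h2.trans h1
          nlinarith
    have h2 := hfirst g hgD
    have h3 : nrB c g f = (∑ i ∈ Hᶜ, f i * U i) / (1 - β) := by
      unfold nrB
      rw [hsplit fun i => g i * ∑ j, f j * c i j]
      have h1 : ∑ i ∈ H, g i * ∑ j, f j * c i j = 0 :=
        sum_eq_zero fun i hi => by simp only [hg, if_pos hi, zero_mul]
      rw [h1, zero_add, sum_div]
      refine sum_congr rfl fun i hi => ?_
      simp only [hg, hU]
      rw [if_neg (mem_compl.1 hi)]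
      ring
    rw [h3, le_div_iff₀ h1β] at h2
    refine ⟨β, hβ0, hb, ?_, g, hgD, ?_⟩
    · nlinarith
    · intro i hi
      have hiH : i ∉ H := by
        intro h
        exact hi (by simp only [hg, if_pos h])
      have h4 : U i ≤ E + ε := by
        by_contra h
        exact hiH (mem_filter.2 ⟨mem_univ _, not_le.1 h⟩)
      rw [le_div_iff₀ h1β]
      refine le_trans ?_ h4
      rw [sum_mul]
      refine sum_le_sum fun j _ => ?_
      simp only [hg]
      split_ifs
      · simp only [zero_mul]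
        exact mul_nonneg (hf.1 j) (hc i j)
      · refine le_of_eq ?_
        field_simp
  · exfalso
    push Not at hb
    have hβpos : 0 < β := by linarith
    set y : ℝ := (2 * β - 1) / β with hy
    have hy0 : 0 ≤ y := div_nonneg (by linarith) hβpos.le
    have hy1 : y ≤ 2 := by
      rw [hy, div_le_iff₀ hβpos]
      linarith
    have hyβ : y * β = 2 * β - 1 := by
      rw [hy]
      field_simp
    set g : V → ℝ := fun i => if i ∈ H then y * f i else 2 * f i with hg
    have hgD : g ∈ nrD V (r + 1) := by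
      refine ⟨fun i => ?_, ?_, fun i => ?_⟩
      · have := hf.1 i
        simp only [hg]
        split_ifs <;> positivity
      · rw [hsplit g]
        have h1 : ∑ i ∈ H, g i = y * β := by
          rw [hβ, mul_sum]
          exact sum_congr rfl fun i hi => by simp only [hg, if_pos hi]
        have h2 : ∑ i ∈ Hᶜ, g i = 2 * (1 - β) := by
          rw [← hβ1, mul_sum]
          exact sum_congr rfl fun i hi => by
            simp only [hg]
            rw [if_neg (mem_compl.1 hi)]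
        rw [h1, h2, hyβ]
        ring
      · rw [hpow]
        have h1 := hf.2.2 i
        have h2 := hf.1 i
        simp only [hg]
        split_ifs
        · nlinarith
        · linarith
    have h2 := hfirst g hgD
    have h3 : nrB c g f = y * ∑ i ∈ H, f i * U i + 2 * ∑ i ∈ Hᶜ, f i * U i := by
      unfold nrB
      rw [hsplit fun i => g i * ∑ j, f j * c i j]
      congr 1
      · rw [mul_sum]
        refine sum_congr rfl fun i hi => ?_
        simp only [hg, hU, if_pos hi]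
        ring
      · rw [mul_sum]
        refine sum_congr rfl fun i hi => ?_
        simp only [hg, hU]
        rw [if_neg (mem_compl.1 hi)]
        ring
    rw [h3] at h2
    have h4 : (2 - y) * (β * (E + ε)) ≤ (2 - y) * ∑ i ∈ H, f i * U i :=
      mul_le_mul_of_nonneg_left hHU (by linarith)
    have h5 : (2 - y) * (β * (E + ε)) = E + ε := by
      have : (2 - y) * (β * (E + ε)) = (2 * β - y * β) * (E + ε) := by ring
      rw [this, hyβ]
      ring
    nlinarith

end

/-- **Two-colour energy lemma.** -/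
theorem nr_energy (κ a ε : ℝ) (hκ : 0 ≤ κ) (ha : 0 ≤ a) (hε : 0 < ε) :
    ∃ K : ℝ, 1 ≤ K ∧ ∀ (V : Type) [Fintype V] [Nonempty V] (c : Bool → V → V → ℝ),
      (∀ b i j, 0 ≤ c b i j) → (∀ b i j, c b i j ≤ a) → (∀ b i j, c b i j = c b j i) →
      (∀ i j, c true i j + c false i j ≤ 2 * κ) →
      ∃ b, ∃ f : V → ℝ, (∀ i, 0 ≤ f i) ∧ ∑ i, f i = 1 ∧ (∀ i, f i ≤ K / Fintype.card V) ∧
        ∀ i, f i ≠ 0 → ∑ j, f j * c b i j ≤ κ + ε := by
  -- the parameters
  set ε1 : ℝ := ε / 4 with hε1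
  set η : ℝ := min (ε / 8) (ε1 * (ε / (4 * κ + 2 * ε))) with hη
  have hε1p : 0 < ε1 := by positivity
  have hηp : 0 < η := lt_min (by positivity) (by positivity)
  set t : ℝ := min (1 / 2) (η / (2 + a)) with ht
  have ht0 : 0 < t := lt_min (by norm_num) (by positivity)
  have ht1 : t ≤ 1 / 2 := min_le_left _ _
  have ht2 : (2 + a) * t ≤ η := by
    have h1 : t ≤ η / (2 + a) := min_le_right _ _
    rw [le_div_iff₀ (by positivity)] at h1
    linarith
  obtain ⟨R, hR⟩ := exists_nat_gt (2 * a / t ^ 2)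
  rw [div_lt_iff₀ (by positivity)] at hR
  refine ⟨2 ^ R, one_le_pow₀ (by norm_num), ?_⟩
  intro V _ _ c hc hca hsym hsum
  obtain ⟨r, hrR, hr⟩ := nr_scale hc hca hR
  have hnear : ∀ b, ∃ f ∈ nrD V r, nrB (c b) f f ≤ nrE (c b) r + t ^ 2 := fun b =>
    nrE_near (c b) r (by positivity)
  choose F hFD hFE using hnear
  have hfirst : ∀ b, ∀ g ∈ nrD V (r + 1), nrB (c b) (F b) (F b) - η ≤ nrB (c b) (F b) g := by
    intro b g hg
    have := nr_first (hc b) (hca b) (hsym b) ht0 ht1 (hr b) (hFD b) (hFE b) hg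
    linarith
  have hcross : ∃ b, nrB (c b) (F b) (F b) ≤ κ + η := by
    by_contra hcon
    push Not at hcon
    have h1 := hfirst true (F false) (nrD_mono (Nat.le_succ r) (hFD false))
    have h2 := hfirst false (F true) (nrD_mono (Nat.le_succ r) (hFD true))
    rw [nrB_comm (hsym false) (F false) (F true)] at h2
    have h3 : nrB (c true) (F true) (F false) + nrB (c false) (F true) (F false) ≤ 2 * κ := by
      have h4 := nrB_le (c := fun i j => c true i j + c false i j) (a := 2 * κ) hsum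
        (hFD true).1 (hFD false).1 (hFD true).2.1 (hFD false).2.1
      refine le_trans (le_of_eq ?_) h4
      unfold nrB
      rw [← sum_add_distrib]
      refine sum_congr rfl fun i _ => ?_
      rw [← mul_add, ← sum_add_distrib]
      simp_rw [mul_add]
    have h5 := hcon true
    have h6 := hcon false
    linarith
  obtain ⟨b, hb⟩ := hcross
  obtain ⟨β, hβ0, hβ1, hβ2, g, hgD, hg⟩ := nr_remove (hc b) (hFD b) hηp.le hε1p
    (by
      have : η ≤ ε / 8 := min_le_left _ _
      rw [hε1]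
      linarith) (fun g hg => by
      rw [nrB_comm (hsym b) g]
      exact hfirst b g hg)
  refine ⟨b, g, hgD.1, hgD.2.1, fun i => (hgD.2.2 i).trans ?_, fun i hi => (hg i hi).trans ?_⟩
  · exact div_le_div_of_nonneg_right (pow_le_pow_right₀ (by norm_num) hrR) (Nat.cast_nonneg _)
  · have h1 : η ≤ ε / 8 := min_le_left _ _
    have h2 : η ≤ ε1 * (ε / (4 * κ + 2 * ε)) := min_le_right _ _
    have h3 : β ≤ ε / (4 * κ + 2 * ε) := by
      have : β * ε1 ≤ ε / (4 * κ + 2 * ε) * ε1 := by linarith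
      exact le_of_mul_le_mul_right this hε1p
    rw [le_div_iff₀ (by positivity)] at h3
    rw [div_le_iff₀ (by linarith)]
    nlinarith

end Pool.Agent.Helper37.NoisyR
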