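import Mathlib
import Pool.Agent.Helper37.NoisyR.PartB2
import Pool.Agent.Helper37.NoisyR.Energy

/-!
# Every noise rate: the exponential rate is at most `(q (1 - q)) ^ (- 1 / 4)`
-/

namespace Pool.Agent.Helper37.NoisyR

open Finset MeasureTheory ProbabilityTheory Filter

/-- The random part, for given `k`. -/
theorem nr_partC_core {q κ e1 K s : ℝ} (hq0 : 0 < q) (hq1 : q ≤ 1 / 2)
    (hκ : κ = -Real.log (q * (1 - q)) / 2) (he1 : 0 ≤ e1) (hK0 : 0 ≤ K)
    (hs : 0 ≤ s) (hsa : s * (-Real.log q) ≤ 1)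
    (hK : ∀ (V : Type) [Fintype V] [Nonempty V] (c : Bool → V → V → ℝ),
      (∀ b i j, 0 ≤ c b i j) → (∀ b i j, c b i j ≤ -Real.log q) →
      (∀ b i j, c b i j = c b j i) → (∀ i j, c true i j + c false i j ≤ 2 * κ) →
      ∃ b, ∃ f : V → ℝ, (∀ i, 0 ≤ f i) ∧ ∑ i, f i = 1 ∧ (∀ i, f i ≤ K / Fintype.card V) ∧
        ∀ i, f i ≠ 0 → ∑ j, f j * c b i j ≤ κ + e1)
    {N k : ℕ} (hN0 : 0 < N)
    (hgood : (k : ℝ) ^ 2 / 2 * (K / N) + k * Real.exp (k * (s * (κ + e1) +
      s ^ 2 * (-Real.log q) ^ 2) - s * ((κ + 2 * e1) * k)) ≤ 1 / 2)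
    {Ω : Type} [MeasurableSpace Ω] {μ : Measure Ω} [IsProbabilityMeasure μ]
    {G : Ω → SimpleGraph (Fin N)} (h : IsNoisy q μ G) :
    1 - 2 * (Real.exp (k * (k * (K / N) * Real.exp ((κ + 2 * e1) * k / 2))) - 1) ≤
      μ.real {ω | ∃ s : Finset (Fin N), (G ω).IsNClique k s ∨ (G ω)ᶜ.IsNClique k s} := by
  classical
  haveI : Nonempty (Fin N) := ⟨⟨0, hN0⟩⟩
  have hκ0 : 0 ≤ κ := by
    have := Real.log_nonpos (x := q * (1 - q)) (by nlinarith) (by nlinarith)
    rw [hκ]
    linarith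
  obtain ⟨b, f, hf, hf1, hfK, hpot⟩ := hK (Fin N) (cost μ G) (nr_cost_nonneg hq0 h)
    (nr_cost_le hq0 (by linarith) h) nr_cost_comm (fun i j => by
      have := nr_cost_sum hq0 hq1 h i j
      rw [hκ]
      linarith)
  rw [Fintype.card_fin] at hfK
  set θ : ℝ := (κ + 2 * e1) * k with hθ
  have hθ0 : 0 ≤ θ := by positivity
  set Gd : Finset (Finset (Fin N)) := (univ.powersetCard k).filter
    (fun T => ∀ v ∈ T, ∑ u ∈ T.erase v, cost μ G b v u < θ) with hGd
  set Bd : Finset (Finset (Fin N)) := (univ.powersetCard k).filter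
    (fun T => ¬ ∀ v ∈ T, ∑ u ∈ T.erase v, cost μ G b v u < θ) with hBd
  have hδ0 : 0 ≤ K / (N : ℝ) := by positivity
  have hmass : 1 / 2 ≤ (k.factorial : ℝ) * ∑ T ∈ Gd, ∏ v ∈ T, f v := by
    have h1 := nr_es_ge hf univ hf1 (fun v _ => hfK v) hδ0 k
    have h2 : es f univ k = ∑ T ∈ Gd, ∏ v ∈ T, f v + ∑ T ∈ Bd, ∏ v ∈ T, f v := by
      unfold es
      rw [hGd, hBd, sum_filter_add_sum_filter_not]
    have h3 := nr_chern hf univ hf1 (cost μ G b) (a := -Real.log q) (lam := κ + e1) (s := s)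
      (θ := θ) (nr_cost_nonneg hq0 h b) (nr_cost_le hq0 (by linarith) h b)
      (fun v _ hv => hpot v hv) hs hsa (by positivity) k Bd (by
        intro T hT
        rw [hBd, mem_filter] at hT
        refine ⟨hT.1, ?_⟩
        have h4 := hT.2
        push Not at h4
        exact h4)
    rw [h2, mul_add] at h1
    linarith
  obtain ⟨w, hw, hw1, hwG, hspread⟩ := nr_weight hf hf1 hfK k Gd
    (fun T hT => (mem_powersetCard.1 (mem_filter.1 hT).1).2) hmass
  have hwk : ∀ S, w S ≠ 0 → S.card = k := fun S hS =>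
    (mem_powersetCard.1 (mem_filter.1 (hwG S hS).1).1).2
  have key := nr_hom_sm hq0 h w hw hw1 hwk (fun _ => b)
    (fun l => 2 * ((k.descFactorial l : ℝ) * (K / N : ℝ) ^ l)) (fun l => by positivity)
    hspread (fun l => l * (θ / 2))
    (fun S hS L hL _ => by
      have h1 := nr_half (cost μ G b) (nr_cost_comm b) L
      have h2 : ∑ i ∈ L, ∑ j ∈ L.erase i, cost μ G b i j ≤ ∑ i ∈ L, θ := by
        refine sum_le_sum fun i hi => ?_
        refine le_trans ?_ ((mem_filter.1 (hwG S hS).1).2 i (hL hi)).le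
        exact sum_le_sum_of_subset_of_nonneg (erase_subset_erase i hL)
          fun j _ _ => nr_cost_nonneg hq0 h b i j
      rw [sum_const, nsmul_eq_mul] at h2
      linarith)
  refine le_trans ?_ key
  set z : ℝ := k * (K / N) * Real.exp (θ / 2) with hz
  have hz0 : 0 ≤ z := by positivity
  have h1 : ∀ l ∈ range (k + 1), (if 2 ≤ l then (k.choose l : ℝ) *
      (2 * ((k.descFactorial l : ℝ) * (K / N : ℝ) ^ l) * Real.exp (l * (θ / 2))) else 0) ≤
      2 * ((k.choose l : ℝ) * z ^ l) - if l = 0 then 2 else 0 := by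
    intro l _
    split_ifs with h2 h3 h3
    · omega
    · rw [sub_zero, Real.exp_nat_mul]
      have h4 : (k.descFactorial l : ℝ) ≤ (k : ℝ) ^ l := by
        exact_mod_cast Nat.descFactorial_le_pow k l
      calc (k.choose l : ℝ) * (2 * ((k.descFactorial l : ℝ) * (K / N : ℝ) ^ l) *
            Real.exp (θ / 2) ^ l)
          ≤ (k.choose l : ℝ) * (2 * ((k : ℝ) ^ l * (K / N : ℝ) ^ l) *
            Real.exp (θ / 2) ^ l) := by
            refine mul_le_mul_of_nonneg_left ?_ (by positivity)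
            refine mul_le_mul_of_nonneg_right ?_ (by positivity)
            refine mul_le_mul_of_nonneg_left ?_ (by norm_num)
            exact mul_le_mul_of_nonneg_right h4 (by positivity)
        _ = _ := by
            rw [hz, mul_pow, mul_pow]
            ring
    · subst h3
      simp
    · rw [sub_zero]
      positivity
  have h2 : ∑ l ∈ range (k + 1), (k.choose l : ℝ) * z ^ l = (1 + z) ^ k := by
    rw [add_comm 1 z, add_pow]
    refine sum_congr rfl fun l _ => ?_
    rw [one_pow]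
    ring
  have h3 : ∑ l ∈ range (k + 1), (if l = 0 then (2 : ℝ) else 0) = 2 := by
    rw [sum_ite_eq' (range (k + 1)) 0 (fun _ => (2 : ℝ)), if_pos (mem_range.2 (by omega))]
  have h4 := sum_le_sum h1
  rw [sum_sub_distrib, ← mul_sum, h2, h3] at h4
  have h5 : (1 + z) ^ k ≤ Real.exp (k * z) := by
    rw [Real.exp_nat_mul]
    refine pow_le_pow_left₀ (by linarith) ?_ k
    have := Real.add_one_le_exp z
    linarith
  linarith

/-- **Part C.** -/
theorem nr_partC {q ε : ℝ} (hq0 : 0 < q) (hq1 : q ≤ 1 / 2) (hε : 0 < ε) :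
    ∀ᶠ k : ℕ in atTop, ∀ N : ℕ, (q * (1 - q)) ^ (-((1 / 4 + ε) * (k : ℝ))) ≤ N →
      Hom q ε N k := by
  have hqq : 0 < q * (1 - q) := by nlinarith
  set κ : ℝ := -Real.log (q * (1 - q)) / 2 with hκ
  have h4 : 1 ≤ -Real.log (q * (1 - q)) := by
    have h5 : q * (1 - q) ≤ 1 / 4 := by nlinarith [sq_nonneg (q - 1 / 2)]
    have h6 := Real.log_le_log hqq h5
    have h7 : Real.log (1 / 4) ≤ -1 := by
      have h8 : (1 / 4 : ℝ) ≤ Real.exp (-1) := by
        rw [Real.exp_neg, one_div]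
        refine inv_anti₀ (Real.exp_pos _) ?_
        have := Real.exp_one_lt_d9
        linarith
      have h9 := Real.log_le_log (by norm_num) h8
      rwa [Real.log_exp] at h9
    linarith
  have hκ1 : 1 / 2 ≤ κ := by
    rw [hκ]
    linarith
  have hκ0 : 0 < κ := by linarith
  set a : ℝ := -Real.log q with ha
  have ha0 : 0 ≤ a := by
    have := Real.log_nonpos hq0.le (by linarith)
    linarith
  set e1 : ℝ := κ * ε with he1
  have he10 : 0 < e1 := by positivity
  obtain ⟨K, hK1, hK⟩ := nr_energy κ a e1 hκ0.le ha0 he10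
  set s : ℝ := e1 / (2 * (a + 1 + e1) ^ 2) with hs
  have hs0 : 0 < s := by positivity
  have hA : 0 < a + 1 + e1 := by positivity
  have hsA : s * (a + 1 + e1) ^ 2 = e1 / 2 := by
    rw [hs]
    field_simp
  have hsa : s * a ≤ 1 := by
    have h5 : s * a * (a + 1 + e1) ≤ 1 * (a + 1 + e1) := by
      have : s * a * (a + 1 + e1) ≤ s * (a + 1 + e1) ^ 2 := by
        rw [mul_assoc, sq]
        refine mul_le_mul_of_nonneg_left ?_ hs0.le
        exact mul_le_mul_of_nonneg_right (by linarith) hA.le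
      linarith
    exact le_of_mul_le_mul_right h5 hA
  have hsa2 : s * a ^ 2 ≤ e1 / 2 := by
    rw [← hsA]
    exact mul_le_mul_of_nonneg_left (pow_le_pow_left₀ ha0 (by linarith) 2) hs0.le
  set c1 : ℝ := s * e1 / 2 with hc1
  have hc10 : 0 < c1 := by positivity
  -- eventually small error terms
  have hlt : ∀ c : ℝ, 0 < c → Real.exp (-c) < 1 := fun c hc => by
    rw [Real.exp_lt_one_iff]
    linarith
  have E1 : ∀ᶠ k : ℕ in atTop, (k : ℝ) ^ 2 * Real.exp (-(1 / 4)) ^ k ≤ 1 / (2 * K) :=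
    (nr_lim (Real.exp_pos _).le (hlt _ (by norm_num)) 2).eventually_le_const (by positivity)
  have E2 : ∀ᶠ k : ℕ in atTop, (k : ℝ) ^ 1 * Real.exp (-c1) ^ k ≤ 1 / 4 :=
    (nr_lim (Real.exp_pos _).le (hlt _ hc10) 1).eventually_le_const (by norm_num)
  have E3 : ∀ᶠ k : ℕ in atTop,
      2 * (Real.exp (K * ((k : ℝ) ^ 2 * Real.exp (-e1) ^ k)) - 1) ≤ ε := by
    have h5 : Tendsto (fun k : ℕ => 2 * (Real.exp (K * ((k : ℝ) ^ 2 * Real.exp (-e1) ^ k)) - 1))
        atTop (nhds (2 * (Real.exp (K * 0) - 1))) := by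
      have h6 := (nr_lim (Real.exp_pos _).le (hlt _ he10) 2).const_mul K
      exact (((Real.continuous_exp.tendsto (K * 0)).comp h6).sub_const 1).const_mul 2
    rw [mul_zero, Real.exp_zero, sub_self, mul_zero] at h5
    exact h5.eventually_le_const hε
  filter_upwards [E1, E2, E3] with k E1 E2 E3 N hN
  have hK0 : 0 < K := by linarith
  have hrpow : (q * (1 - q)) ^ (-((1 / 4 + ε) * (k : ℝ))) =
      Real.exp (κ * k / 2 + 2 * e1 * k) := by
    rw [Real.rpow_def_of_pos hqq]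
    congr 1
    have : Real.log (q * (1 - q)) = -2 * κ := by
      rw [hκ]
      ring
    rw [this, he1]
    ring
  rw [hrpow] at hN
  have hNpos : (0 : ℝ) < N := (Real.exp_pos _).trans_le hN
  have hN0 : 0 < N := by exact_mod_cast hNpos
  intro Ω _ μ _ G h
  have hgood : (k : ℝ) ^ 2 / 2 * (K / N) + k * Real.exp (k * (s * (κ + e1) +
      s ^ 2 * a ^ 2) - s * ((κ + 2 * e1) * k)) ≤ 1 / 2 := by
    have h5 : (k : ℝ) ^ 2 / 2 * (K / N) ≤ 1 / 4 := by
      have h6 : (1 : ℝ) / N ≤ Real.exp (-(1 / 4)) ^ k := by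
        rw [div_le_iff₀ hNpos, ← Real.exp_nat_mul]
        calc (1 : ℝ) = Real.exp ((k : ℝ) * (-(1 / 4))) * Real.exp ((k : ℝ) * (1 / 4)) := by
              rw [← Real.exp_add]
              ring_nf
              simp
          _ ≤ Real.exp ((k : ℝ) * (-(1 / 4))) * N := by
              refine mul_le_mul_of_nonneg_left (le_trans (Real.exp_le_exp.2 ?_) hN)
                (Real.exp_pos _).le
              have hk0 : (0 : ℝ) ≤ k := Nat.cast_nonneg k
              nlinarith
      have h7 : (k : ℝ) ^ 2 / 2 * (K / N) = K / 2 * ((k : ℝ) ^ 2 * (1 / N)) := by ring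
      rw [h7]
      have h8 : (k : ℝ) ^ 2 * (1 / N) ≤ 1 / (2 * K) :=
        (mul_le_mul_of_nonneg_left h6 (by positivity)).trans E1
      calc K / 2 * ((k : ℝ) ^ 2 * (1 / N)) ≤ K / 2 * (1 / (2 * K)) :=
            mul_le_mul_of_nonneg_left h8 (by positivity)
        _ = 1 / 4 := by
            field_simp
            norm_num
    have h6 : (k : ℝ) * Real.exp (k * (s * (κ + e1) +
      s ^ 2 * a ^ 2) - s * ((κ + 2 * e1) * k)) ≤ 1 / 4 := by
      refine le_trans (mul_le_mul_of_nonneg_left ?_ (Nat.cast_nonneg k))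
        (by rw [pow_one] at E2; exact E2)
      rw [← Real.exp_nat_mul]
      refine Real.exp_le_exp.2 ?_
      have hk0 : (0 : ℝ) ≤ k := Nat.cast_nonneg k
      have h7 : s * (κ + e1) + s ^ 2 * a ^ 2 - s * (κ + 2 * e1) ≤ -c1 := by
        have h8 := mul_le_mul_of_nonneg_left hsa2 hs0.le
        rw [hc1]
        nlinarith
      have h8 := mul_le_mul_of_nonneg_left h7 hk0
      linarith
    linarith
  have key := nr_partC_core hq0 hq1 hκ he10.le hK0.le hs0.le hsa hK hN0 hgood h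
  refine le_trans ?_ key
  have h5 : (k : ℝ) * (k * (K / N) * Real.exp ((κ + 2 * e1) * k / 2)) ≤
      K * ((k : ℝ) ^ 2 * Real.exp (-e1) ^ k) := by
    have h6 : (1 : ℝ) / N * Real.exp ((κ + 2 * e1) * k / 2) ≤ Real.exp (-e1) ^ k := by
      rw [one_div, ← div_eq_inv_mul, div_le_iff₀ hNpos, ← Real.exp_nat_mul]
      calc Real.exp ((κ + 2 * e1) * k / 2)
          = Real.exp ((k : ℝ) * (-e1)) * Real.exp (κ * k / 2 + 2 * e1 * k) := by
            rw [← Real.exp_add]
            congr 1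
            ring
        _ ≤ _ := mul_le_mul_of_nonneg_left hN (Real.exp_pos _).le
    calc (k : ℝ) * (k * (K / N) * Real.exp ((κ + 2 * e1) * k / 2))
        = K * ((k : ℝ) ^ 2 * (1 / N * Real.exp ((κ + 2 * e1) * k / 2))) := by ring
      _ ≤ _ := mul_le_mul_of_nonneg_left (mul_le_mul_of_nonneg_left h6 (by positivity)) hK0.le
  have h6 := Real.exp_le_exp.2 h5
  linarith

end Pool.Agent.Helper37.NoisyR
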