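import Mathlib
import Pool.Agent.Helper37.NoisyR.PartC
import Pool.Agent.Helper37.NoisyR.Lower

/-!
# Noise rate zero, and the window of width `1 / √k`
-/

namespace Pool.Agent.Helper37.NoisyR

open Finset MeasureTheory ProbabilityTheory Filter

theorem nr_dirac_noisy {N : ℕ} (H : SimpleGraph (Fin N)) :
    IsNoisy 0 (Measure.dirac () : Measure Unit) (fun _ => H) := by
  refine ⟨fun i j => MeasurableSet.of_discrete, ?_, fun i j _ => measureReal_nonneg,
    fun i j _ => ?_⟩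
  · rw [iIndepSet_iff_meas_biInter (fun e => MeasurableSet.of_discrete)]
    intro s
    rw [Measure.dirac_apply' _ MeasurableSet.of_discrete]
    simp_rw [Measure.dirac_apply' _ (MeasurableSet.of_discrete (α := Unit))]
    by_cases h : ∀ e ∈ s, H.Adj e.1.1 e.1.2
    · rw [Set.indicator_of_mem, prod_congr rfl (g := fun _ => (1 : ENNReal))]
      · simp
      · intro e he
        rw [Set.indicator_of_mem]
        · rfl
        · exact h e he
      · exact Set.mem_iInter₂.2 fun e he => h e he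
    · push Not at h
      obtain ⟨e, he, h'⟩ := h
      rw [Set.indicator_of_notMem, prod_eq_zero he]
      · rw [Set.indicator_of_notMem]
        exact h'
      · intro hcon
        exact h' (Set.mem_iInter₂.1 hcon e he)
  · rw [sub_zero]
    exact measureReal_le_one

theorem nr_zero (k N : ℕ) : Hom 0 (1 / 2) N k ↔ ∀ H : SimpleGraph (Fin N),
    (∃ s : Finset (Fin N), H.IsNClique k s) ∨ (∃ s : Finset (Fin N), Hᶜ.IsNClique k s) := by
  constructor
  · intro h H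
    have h1 := h Unit (Measure.dirac ()) (fun _ => H) (nr_dirac_noisy H)
    by_contra hcon
    have h2 : {ω : Unit | ∃ s : Finset (Fin N), H.IsNClique k s ∨ Hᶜ.IsNClique k s} = ∅ := by
      ext ω
      simp only [Set.mem_ofPred_eq, Set.mem_empty_iff_false, iff_false]
      rintro ⟨s, hs | hs⟩
      · exact hcon (Or.inl ⟨s, hs⟩)
      · exact hcon (Or.inr ⟨s, hs⟩)
    rw [h2, measureReal_empty] at h1
    norm_num at h1
  · intro h Ω _ μ _ G _
    have h2 : {ω | ∃ s : Finset (Fin N), (G ω).IsNClique k s ∨ (G ω)ᶜ.IsNClique k s} =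
        Set.univ := by
      ext ω
      simp only [Set.mem_ofPred_eq, Set.mem_univ, iff_true]
      rcases h (G ω) with ⟨s, hs⟩ | ⟨s, hs⟩
      · exact ⟨s, Or.inl hs⟩
      · exact ⟨s, Or.inr hs⟩
    rw [h2, probReal_univ]
    norm_num

theorem nr_RN_zero (k : ℕ) : RN 0 k = sInf {n : ℕ | ∀ H : SimpleGraph (Fin n),
    (∃ s : Finset (Fin n), H.IsNClique k s) ∨ (∃ s : Finset (Fin n), Hᶜ.IsNClique k s)} := by
  unfold RN
  congr 1
  ext N
  exact nr_zero k N

theorem nr_two_pow (k : ℕ) : ((k : ℝ) / Real.exp 1) * (2 : ℝ) ^ (((k : ℝ) - 1) / 2) =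
    1 / (Real.exp 1 * Real.sqrt 2) * (k * (2 : ℝ) ^ ((k : ℝ) / 2)) := by
  have h1 : (2 : ℝ) ^ (((k : ℝ) - 1) / 2) = (2 : ℝ) ^ ((k : ℝ) / 2) / Real.sqrt 2 := by
    rw [Real.sqrt_eq_rpow, ← Real.rpow_sub (by norm_num)]
    congr 1
    ring
  rw [h1]
  field_simp

/-- `(1 - 4 A² / k) ^ (-(k - 1) / 4) ≤ (1 + ε) e ^ (A²)` for large `k`. -/
theorem nr_window_pow {A ε : ℝ} (hA : 0 ≤ A) (hε : 0 < ε) :
    ∀ᶠ k : ℕ in atTop, ∀ q : ℝ, 1 / 2 - A / Real.sqrt k ≤ q → q ≤ 1 / 2 →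
      9 / 25 ≤ q ∧ (q * (1 - q)) ^ (-((k : ℝ) - 1) / 4) ≤
        (1 + ε) * Real.exp (A ^ 2) * (2 : ℝ) ^ (((k : ℝ) - 1) / 2) := by
  have h1 : Tendsto (fun k : ℕ => A / Real.sqrt k) atTop (nhds 0) := by
    have h2 : Tendsto (fun k : ℕ => Real.sqrt k) atTop atTop :=
      Real.tendsto_sqrt_atTop.comp tendsto_natCast_atTop_atTop
    exact h2.const_div_atTop A
  have h3 : Tendsto (fun k : ℕ => Real.exp (A ^ 2 / (1 - 4 * (A / Real.sqrt k) ^ 2)))
      atTop (nhds (Real.exp (A ^ 2 / (1 - 4 * 0 ^ 2)))) := by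
    refine (Real.continuous_exp.tendsto _).comp ?_
    refine Tendsto.div tendsto_const_nhds ?_ (by norm_num)
    exact tendsto_const_nhds.sub ((h1.pow 2).const_mul 4)
  have h4 : Real.exp (A ^ 2 / (1 - 4 * 0 ^ 2)) < (1 + ε) * Real.exp (A ^ 2) := by
    have h5 : A ^ 2 / (1 - 4 * 0 ^ 2) = A ^ 2 := by norm_num
    rw [h5]
    have := Real.exp_pos (A ^ 2)
    nlinarith
  filter_upwards [h1.eventually_le_const (show (0 : ℝ) < 7 / 50 by norm_num),
    h3.eventually_le_const h4, eventually_ge_atTop 1] with k hk1 hk2 hk3 q hq hq1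
  have hk : (1 : ℝ) ≤ k := by exact_mod_cast hk3
  set δ : ℝ := A / Real.sqrt k with hδ
  have hδ0 : 0 ≤ δ := by positivity
  refine ⟨by linarith, ?_⟩
  have hδk : δ ^ 2 * k = A ^ 2 := by
    rw [hδ, div_pow, Real.sq_sqrt (by linarith)]
    field_simp
  have hqq : 1 / 4 * (1 - 4 * δ ^ 2) ≤ q * (1 - q) := by nlinarith
  have hpos : 0 < 1 - 4 * δ ^ 2 := by nlinarith
  have hqpos : 0 < q * (1 - q) := by nlinarith
  have hlog : -Real.log (q * (1 - q)) ≤ Real.log 4 + 4 * δ ^ 2 / (1 - 4 * δ ^ 2) := by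
    have h5 := Real.log_le_log (by positivity) hqq
    rw [Real.log_mul (by norm_num) hpos.ne', one_div, Real.log_inv] at h5
    have h6 := Real.one_sub_inv_le_log_of_pos hpos
    have h7 : 1 - (1 - 4 * δ ^ 2)⁻¹ = -(4 * δ ^ 2 / (1 - 4 * δ ^ 2)) := by
      field_simp
      ring
    linarith
  rw [Real.rpow_def_of_pos hqpos]
  have h8 : (2 : ℝ) ^ (((k : ℝ) - 1) / 2) = Real.exp (Real.log 4 * ((k - 1) / 4)) := by
    rw [Real.rpow_def_of_pos (by norm_num)]
    congr 1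
    have : Real.log 4 = 2 * Real.log 2 := by
      rw [show (4 : ℝ) = 2 ^ 2 by norm_num, Real.log_pow]
      norm_num
    rw [this]
    ring
  rw [h8]
  calc Real.exp (Real.log (q * (1 - q)) * (-((k : ℝ) - 1) / 4))
      ≤ Real.exp (Real.log 4 * ((k - 1) / 4) + A ^ 2 / (1 - 4 * δ ^ 2)) := by
        refine Real.exp_le_exp.2 ?_
        have h9 := mul_le_mul_of_nonneg_right hlog (show (0 : ℝ) ≤ (k - 1) / 4 by linarith)
        have h10 : 4 * δ ^ 2 / (1 - 4 * δ ^ 2) * ((k - 1) / 4) ≤ A ^ 2 / (1 - 4 * δ ^ 2) := by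
          rw [div_mul_eq_mul_div]
          refine div_le_div_of_nonneg_right ?_ hpos.le
          nlinarith [sq_nonneg δ]
        linarith
    _ = Real.exp (A ^ 2 / (1 - 4 * δ ^ 2)) * Real.exp (Real.log 4 * ((k - 1) / 4)) := by
        rw [add_comm, Real.exp_add]
    _ ≤ _ := mul_le_mul_of_nonneg_right hk2 (Real.exp_pos _).le

/-- **The window of width `1 / √k`.** -/
theorem nr_window {A ε : ℝ} (hA : 0 ≤ A) (hε : 0 < ε) (hε1 : ε < 1) :
    ∀ᶠ k : ℕ in atTop, ∀ q : ℝ, 1 / 2 - A / Real.sqrt k ≤ q → q ≤ 1 / 2 →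
      (1 - ε) / (Real.exp 1 * Real.sqrt 2) * (k * (2 : ℝ) ^ ((k : ℝ) / 2)) ≤ (RN q k : ℝ) ∧
      (RN q k : ℝ) ≤
        (1 + ε) * Real.exp (A ^ 2) / (Real.exp 1 * Real.sqrt 2) *
          (k * (2 : ℝ) ^ ((k : ℝ) / 2)) := by
  set e1 : ℝ := ε / 8 with he1
  have he10 : 0 < e1 := by positivity
  have he11 : e1 ≤ 1 / 8 := by linarith
  have h1 : ∀ᶠ k : ℕ in atTop, 1 ≤ e1 * ((k : ℝ) / Real.exp 1) := by
    have h2 : Tendsto (fun k : ℕ => e1 * ((k : ℝ) / Real.exp 1)) atTop atTop := by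
      refine Tendsto.const_mul_atTop he10 ?_
      exact (tendsto_natCast_atTop_atTop).atTop_div_const (Real.exp_pos 1)
    exact h2.eventually_ge_atTop 1
  filter_upwards [h1, nr_window_pow hA he10, nr_partB he10, nr_lower hε hε1,
    eventually_ge_atTop 1] with k h1 h2 h3 h4 hk q hq hq1
  obtain ⟨hq2, hpow⟩ := h2 q hq hq1
  have hk' : (1 : ℝ) ≤ k := by exact_mod_cast hk
  have hE := Real.exp_pos 1
  set X : ℝ := ((k : ℝ) / Real.exp 1) * (2 : ℝ) ^ (((k : ℝ) - 1) / 2) with hX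
  have hX0 : 0 < X := by positivity
  have hXe : 1 ≤ e1 * X := by
    have h5 : (1 : ℝ) ≤ (2 : ℝ) ^ (((k : ℝ) - 1) / 2) :=
      Real.one_le_rpow (by norm_num) (by linarith)
    calc (1 : ℝ) ≤ e1 * ((k : ℝ) / Real.exp 1) := h1
      _ ≤ e1 * ((k : ℝ) / Real.exp 1) * (2 : ℝ) ^ (((k : ℝ) - 1) / 2) :=
          le_mul_of_one_le_right (by positivity) h5
      _ = _ := by rw [hX]; ring
  set N : ℕ := ⌈(1 + e1) * ((1 + e1) * Real.exp (A ^ 2)) * X⌉₊ with hN
  have hHom : Hom q (1 / 2) N k := by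
    have h5 := h3 q hq2 hq1 N (by
      refine le_trans ?_ (Nat.le_ceil _)
      calc (1 + e1) * (k / Real.exp 1) * (q * (1 - q)) ^ (-((k : ℝ) - 1) / 4)
          ≤ (1 + e1) * (k / Real.exp 1) * ((1 + e1) * Real.exp (A ^ 2) *
            (2 : ℝ) ^ (((k : ℝ) - 1) / 2)) := mul_le_mul_of_nonneg_left hpow (by positivity)
        _ = _ := by rw [hX]; ring)
    intro Ω _ μ _ G hG
    have := h5 Ω μ G hG
    linarith
  have hRN : RN q k ≤ N := Nat.sInf_le hHom
  have hmem : Hom q (1 / 2) (RN q k) k := Nat.sInf_mem (s := {N : ℕ | Hom q (1 / 2) N k})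
    ⟨N, hHom⟩
  have hXk : 1 / (Real.exp 1 * Real.sqrt 2) * (k * (2 : ℝ) ^ ((k : ℝ) / 2)) = X :=
    (nr_two_pow k).symm
  constructor
  · have h5 : (1 - ε) / (Real.exp 1 * Real.sqrt 2) * (k * (2 : ℝ) ^ ((k : ℝ) / 2)) =
        (1 - ε) * X := by
      rw [← hXk]
      ring
    rw [h5]
    by_contra hcon
    push Not at hcon
    refine h4 q hq1 (RN q k) ?_ hmem
    rw [mul_assoc]
    exact hcon.le
  · have h5 : (1 + ε) * Real.exp (A ^ 2) / (Real.exp 1 * Real.sqrt 2) *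
          (k * (2 : ℝ) ^ ((k : ℝ) / 2)) = (1 + ε) * Real.exp (A ^ 2) * X := by
      rw [← hXk]
      ring
    rw [h5]
    have h6 : (RN q k : ℝ) ≤ N := by exact_mod_cast hRN
    have h7 : (N : ℝ) < (1 + e1) * ((1 + e1) * Real.exp (A ^ 2)) * X + 1 :=
      Nat.ceil_lt_add_one (by positivity)
    have h8 : (1 : ℝ) ≤ Real.exp (A ^ 2) := Real.one_le_exp (by positivity)
    have h9 : (1 + e1) * ((1 + e1) * Real.exp (A ^ 2)) * X + 1 ≤
        (1 + ε) * Real.exp (A ^ 2) * X := by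
      have h10 : e1 * X ≤ e1 * Real.exp (A ^ 2) * X := by
        refine mul_le_mul_of_nonneg_right ?_ hX0.le
        exact le_mul_of_one_le_right he10.le h8
      have h11 : (1 + e1) * (1 + e1) + e1 ≤ 1 + ε := by nlinarith
      have h12 : 0 ≤ Real.exp (A ^ 2) * X := by positivity
      calc (1 + e1) * ((1 + e1) * Real.exp (A ^ 2)) * X + 1
          ≤ ((1 + e1) * (1 + e1) + e1) * (Real.exp (A ^ 2) * X) := by linarith
        _ ≤ (1 + ε) * (Real.exp (A ^ 2) * X) := mul_le_mul_of_nonneg_right h11 h12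
        _ = _ := by ring
    linarith

/-- **Limit in the window of width `o(1 / √k)`.** -/
theorem nr_limit (q : ℕ → ℝ) (hq : ∀ k, q k ≤ 1 / 2)
    (hlim : Tendsto (fun k : ℕ => Real.sqrt k * (1 / 2 - q k)) atTop (nhds 0)) :
    Tendsto (fun k : ℕ => (RN (q k) k : ℝ) / (k * (2 : ℝ) ^ ((k : ℝ) / 2))) atTop
      (nhds (1 / (Real.exp 1 * Real.sqrt 2))) := by
  rw [Metric.tendsto_atTop]
  intro ε hε
  set c : ℝ := 1 / (Real.exp 1 * Real.sqrt 2) with hc
  have hc0 : 0 < c := by positivity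
  have hc1 : c ≤ 1 := by
    rw [hc, div_le_one (by positivity)]
    have h1 : (1 : ℝ) ≤ Real.exp 1 := Real.one_le_exp zero_le_one
    have h2 : (1 : ℝ) ≤ Real.sqrt 2 := by
      rw [Real.one_le_sqrt]
      norm_num
    nlinarith
  set d : ℝ := min (ε / 4) (1 / 4) with hd
  have hd0 : 0 < d := lt_min (by positivity) (by norm_num)
  have hd1 : d ≤ 1 / 4 := min_le_right _ _
  have hd2 : d ≤ ε / 4 := min_le_left _ _
  set A : ℝ := d / 2 with hA
  have hA0 : 0 < A := by positivity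
  have hexpA : Real.exp (A ^ 2) ≤ 1 + d := by
    have h1 : |A ^ 2| ≤ 1 := by
      rw [abs_of_nonneg (sq_nonneg A)]
      nlinarith
    have h2 := (abs_le.1 (Real.abs_exp_sub_one_le h1)).2
    rw [abs_of_nonneg (sq_nonneg A)] at h2
    nlinarith
  have h1 := nr_window hA0.le hd0 (by linarith)
  have h2 : ∀ᶠ k : ℕ in atTop, Real.sqrt k * (1 / 2 - q k) ≤ A :=
    hlim.eventually_le_const hA0
  have h3 := (h1.and (h2.and (eventually_ge_atTop 1)))
  obtain ⟨k0, hk0⟩ := eventually_atTop.1 h3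
  refine ⟨k0, fun k hk => ?_⟩
  obtain ⟨h4, h5, h6⟩ := hk0 k hk
  have hk1 : (1 : ℝ) ≤ k := by exact_mod_cast h6
  have hsq : 0 < Real.sqrt k := Real.sqrt_pos.2 (by linarith)
  have h7 : 1 / 2 - A / Real.sqrt k ≤ q k := by
    have : 1 / 2 - q k ≤ A / Real.sqrt k := by
      rw [le_div_iff₀ hsq]
      linarith
    linarith
  obtain ⟨h8, h9⟩ := h4 (q k) h7 (hq k)
  set Y : ℝ := (k : ℝ) * (2 : ℝ) ^ ((k : ℝ) / 2) with hY
  have hY0 : 0 < Y := by positivity
  have h10 : (1 - d) * c ≤ (RN (q k) k : ℝ) / Y := by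
    rw [le_div_iff₀ hY0]
    refine le_trans (le_of_eq ?_) h8
    rw [hc]
    ring
  have h11 : (RN (q k) k : ℝ) / Y ≤ (1 + d) * Real.exp (A ^ 2) * c := by
    rw [div_le_iff₀ hY0]
    refine h9.trans (le_of_eq ?_)
    rw [hc]
    ring
  rw [Real.dist_eq, abs_lt]
  have h12 : (1 + d) * Real.exp (A ^ 2) * c ≤ c + 3 * d := by
    have h13 : (1 + d) * Real.exp (A ^ 2) ≤ (1 + d) * (1 + d) :=
      mul_le_mul_of_nonneg_left hexpA (by linarith)
    have h14 : (1 + d) * (1 + d) ≤ 1 + 3 * d := by nlinarith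
    calc (1 + d) * Real.exp (A ^ 2) * c ≤ (1 + 3 * d) * c :=
          mul_le_mul_of_nonneg_right (h13.trans h14) hc0.le
      _ = c + 3 * d * c := by ring
      _ ≤ c + 3 * d := by nlinarith
  constructor
  · nlinarith
  · linarith

end Pool.Agent.Helper37.NoisyR
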